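import Mathlib

/-!
# The probability that a random number lies in an arc modulo one
-/

set_option autoImplicit false

namespace Pool.Agent.N794.DG

open Finset MeasureTheory
open scoped Real

/-- `e(x)` -/
noncomputable def ex (x : ℝ) : ℂ := Complex.exp (2 * π * Complex.I * x)

lemma norm_ex (x : ℝ) : ‖ex x‖ = 1 := by
  unfold ex
  have : (2 * π * Complex.I * x : ℂ) = ((2 * π * x : ℝ) : ℂ) * Complex.I := by
    push_cast
    ring
  rw [this, Complex.norm_exp_ofReal_mul_I]

lemma ex_add (x y : ℝ) : ex (x + y) = ex x * ex y := by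
  unfold ex
  rw [← Complex.exp_add]
  congr 1
  push_cast
  ring

lemma ex_zero : ex 0 = 1 := by
  unfold ex
  simp

lemma fourier_ex (h : ℤ) (x : ℝ) : fourier h (x : UnitAddCircle) = ex (h * x) := by
  rw [fourier_coe_apply]
  unfold ex
  congr 1
  push_cast
  ring

lemma int_fourier (h : ℤ) : ∫ t : UnitAddCircle, fourier h t ∂AddCircle.haarAddCircle = if h = 0 then 1 else 0 := by
  split_ifs with h0
  · rw [h0]
    simp
  · exact integral_eq_zero_of_add_right_eq_neg (μ := AddCircle.haarAddCircle)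
      (fourier_add_half_inv_index h0 (Fact.out : (0 : ℝ) < 1))

lemma haar_ball (y : UnitAddCircle) (ρ : ℝ) (hρ : 0 ≤ ρ) :
    (AddCircle.haarAddCircle (Metric.closedBall y ρ)).toReal ≤ 2 * ρ := by
  have h1 := AddCircle.volume_closedBall (T := 1) (x := y) ρ
  rw [AddCircle.volume_eq_smul_haarAddCircle] at h1
  simp only [ENNReal.ofReal_one, one_smul] at h1
  rw [h1, ENNReal.toReal_ofReal (le_min zero_le_one (by linarith))]
  exact min_le_right _ _

/-- the tent function -/
noncomputable def tent (y : UnitAddCircle) (r η : ℝ) : C(UnitAddCircle, ℝ) where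
  toFun t := max 0 (min 1 ((r + η - ‖t - y‖) / η))
  continuous_toFun := by fun_prop

lemma tent_nonneg (y : UnitAddCircle) (r η : ℝ) (t : UnitAddCircle) : 0 ≤ tent y r η t := le_max_left _ _

lemma tent_one {y : UnitAddCircle} {r η : ℝ} (hη : 0 < η) {t : UnitAddCircle} (ht : ‖t - y‖ ≤ r) : 1 ≤ tent y r η t := by
  refine le_trans ?_ (le_max_right _ _)
  rw [le_min_iff]
  refine ⟨le_rfl, ?_⟩
  rw [le_div_iff₀ hη]
  linarith

lemma tent_le {y : UnitAddCircle} {r η : ℝ} (hη : 0 < η) (t : UnitAddCircle) :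
    tent y r η t ≤ (Metric.closedBall y (r + η)).indicator (fun _ => (1 : ℝ)) t := by
  by_cases ht : t ∈ Metric.closedBall y (r + η)
  · rw [Set.indicator_of_mem ht]
    exact max_le zero_le_one (min_le_left _ _)
  · rw [Set.indicator_of_notMem ht]
    refine max_le le_rfl ((min_le_right _ _).trans ?_)
    rw [Metric.mem_closedBall, dist_eq_norm, not_le] at ht
    apply div_nonpos_of_nonpos_of_nonneg _ hη.le
    linarith

lemma int_tent (y : UnitAddCircle) {r η : ℝ} (hr : 0 ≤ r) (hη : 0 < η) :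
    ∫ t, tent y r η t ∂AddCircle.haarAddCircle ≤ 2 * (r + η) := by
  have h1 : ∫ t, tent y r η t ∂AddCircle.haarAddCircle ≤
      ∫ t, (Metric.closedBall y (r + η)).indicator (fun _ => (1 : ℝ)) t ∂AddCircle.haarAddCircle := by
    apply integral_mono
    · exact (tent y r η).continuous.integrable_of_hasCompactSupport (HasCompactSupport.of_compactSpace _)
    · exact (integrable_const (1 : ℝ)).indicator Metric.isClosed_closedBall.measurableSet
    · exact tent_le hη
  refine h1.trans ?_
  rw [integral_indicator Metric.isClosed_closedBall.measurableSet, setIntegral_const, smul_eq_mul, mul_one]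
  exact haar_ball y _ (by linarith)

/-- a trigonometric majorant of an arc -/
theorem majorant (μ r η : ℝ) (hr : 0 ≤ r) (hη : 0 < η) : ∃ c : ℤ →₀ ℂ,
    (∀ x : ℝ, 0 ≤ (∑ h ∈ c.support, c h * ex (h * x)).re) ∧
    (∀ x : ℝ, (∃ z : ℤ, |x - μ - z| ≤ r) → 1 ≤ (∑ h ∈ c.support, c h * ex (h * x)).re) ∧
    0 ≤ (c 0).re ∧ (c 0).re ≤ 2 * r + 4 * η := by
  obtain ⟨y, hy⟩ : ∃ y : UnitAddCircle, y = ((μ : ℝ) : UnitAddCircle) := ⟨_, rfl⟩
  obtain ⟨G, hG⟩ : ∃ G : C(UnitAddCircle, ℂ), ∀ t, G t = ((tent y r η t + η : ℝ) : ℂ) :=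
    ⟨⟨fun t => ((tent y r η t + η : ℝ) : ℂ), by fun_prop⟩, fun _ => rfl⟩
  have hcl : G ∈ closure ((Submodule.span ℂ (Set.range (@fourier (1 : ℝ)))) : Set C(UnitAddCircle, ℂ)) := by
    rw [← Submodule.topologicalClosure_coe, span_fourier_closure_eq_top]
    trivial
  obtain ⟨P, hP, hPG⟩ := Metric.mem_closure_iff.1 hcl η hη
  obtain ⟨c, hc⟩ := (Finsupp.mem_span_range_iff_exists_finsupp).1 hP
  have hval : ∀ t : UnitAddCircle, P t = ∑ h ∈ c.support, c h * fourier h t := by
    intro t
    rw [← hc, Finsupp.sum, ContinuousMap.sum_apply]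
    rfl
  have hclose : ∀ t : UnitAddCircle, |(P t).re - (tent y r η t + η)| ≤ η := by
    intro t
    have h1 : ‖G t - P t‖ ≤ η := by
      have h2 := ContinuousMap.dist_apply_le_dist (f := G) (g := P) t
      rw [dist_eq_norm] at h2
      exact h2.trans hPG.le
    rw [hG] at h1
    have h2 := (Complex.abs_re_le_norm _).trans h1
    rw [Complex.sub_re, Complex.ofReal_re] at h2
    rw [abs_sub_comm]
    exact h2
  have hre : ∀ x : ℝ, (∑ h ∈ c.support, c h * ex (h * x)).re = (P (x : UnitAddCircle)).re := by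
    intro x
    rw [hval]
    simp only [fourier_ex]
  have hint : ∫ t, P t ∂AddCircle.haarAddCircle = c 0 := by
    simp only [hval]
    rw [integral_finset_sum]
    · have : ∀ h ∈ c.support, ∫ t : UnitAddCircle, c h * fourier h t ∂AddCircle.haarAddCircle = if h = 0 then c 0 else 0 := by
        intro h _
        rw [integral_const_mul, int_fourier]
        split_ifs with h0
        · rw [h0, mul_one]
        · rw [mul_zero]
      rw [sum_congr rfl this, sum_ite_eq']
      split_ifs with h0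
      · rfl
      · exact (Finsupp.notMem_support_iff.1 h0).symm
    · intro h _
      have hcont : Continuous fun t : UnitAddCircle => c h * fourier h t :=
        continuous_const.mul (fourier h).continuous
      exact hcont.integrable_of_hasCompactSupport (HasCompactSupport.of_compactSpace _)
  have hPi : Integrable (fun t => P t) AddCircle.haarAddCircle :=
    P.continuous.integrable_of_hasCompactSupport (HasCompactSupport.of_compactSpace _)
  have hint2 : (c 0).re = ∫ t, (P t).re ∂AddCircle.haarAddCircle := by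
    rw [← hint]
    exact (integral_re hPi).symm
  have hti : Integrable (fun t => tent y r η t) AddCircle.haarAddCircle :=
    (tent y r η).continuous.integrable_of_hasCompactSupport (HasCompactSupport.of_compactSpace _)
  refine ⟨c, fun x => ?_, fun x hx => ?_, ?_, ?_⟩
  · rw [hre]
    have h1 := (abs_le.1 (hclose (x : UnitAddCircle))).1
    have h2 := tent_nonneg y r η (x : UnitAddCircle)
    linarith
  · rw [hre]
    have h1 := (abs_le.1 (hclose (x : UnitAddCircle))).1
    obtain ⟨z, hz⟩ := hx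
    have h2 : ‖((x : ℝ) : UnitAddCircle) - y‖ ≤ r := by
      rw [hy, ← AddCircle.coe_sub, UnitAddCircle.norm_eq]
      exact (round_le (x - μ) z).trans hz
    have h3 := tent_one hη h2
    linarith
  · rw [hint2]
    apply integral_nonneg
    intro t
    have h1 := (abs_le.1 (hclose t)).1
    have h2 := tent_nonneg y r η t
    simp only [Pi.zero_apply]
    linarith
  · rw [hint2]
    have h1 : ∫ t, (P t).re ∂AddCircle.haarAddCircle ≤ ∫ t, (tent y r η t + 2 * η) ∂AddCircle.haarAddCircle := by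
      apply integral_mono hPi.re (hti.add (integrable_const _))
      intro t
      have h1 := (abs_le.1 (hclose t)).2
      simp only [RCLike.re_to_complex, Pi.add_apply]
      linarith
    refine h1.trans ?_
    rw [integral_add hti (integrable_const _), integral_const, probReal_univ, smul_eq_mul, one_mul]
    have h2 := int_tent y hr hη
    linarith

/-- **the probability of an arc** -/
theorem arc_prob (lo hi δ : ℝ) (hlh : lo ≤ hi) (hδ : 0 < δ) : ∃ (H : ℕ) (ε : ℝ), 0 < ε ∧
    ∀ (ι : Type) (Ω : Finset ι) (w x : ι → ℝ), (∀ i ∈ Ω, 0 ≤ w i) → ∑ i ∈ Ω, w i ≤ 1 →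
    (∀ h : ℤ, h ≠ 0 → |h| ≤ H → ‖∑ i ∈ Ω, (w i : ℂ) * ex (h * x i)‖ ≤ ε) →
    ∀ B : Finset ι, B ⊆ Ω → (∀ i ∈ B, ∃ z : ℤ, lo ≤ x i - z ∧ x i - z ≤ hi) → ∑ i ∈ B, w i ≤ hi - lo + δ := by
  obtain ⟨c, h1, h2, h3, h4⟩ := majorant ((lo + hi) / 2) ((hi - lo) / 2) (δ / 8) (by linarith) (by linarith)
  obtain ⟨A, hA⟩ : ∃ A : ℝ, A = ∑ h ∈ c.support, ‖c h‖ := ⟨_, rfl⟩
  have hA0 : 0 ≤ A := by
    rw [hA]
    exact sum_nonneg fun _ _ => norm_nonneg _
  have hA1 : 0 < 2 * (A + 1) := by linarith
  refine ⟨∑ h ∈ c.support, h.natAbs, δ / (2 * (A + 1)), by positivity, fun ι Ω w x hw hs hsm B hB hbad => ?_⟩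
  have hstep : ∑ i ∈ B, w i ≤ ∑ i ∈ Ω, w i * (∑ h ∈ c.support, c h * ex (h * x i)).re := by
    refine le_trans (sum_le_sum fun i hi => ?_) (sum_le_sum_of_subset_of_nonneg hB fun i hi _ => mul_nonneg (hw i hi) (h1 (x i)))
    apply le_mul_of_one_le_right (hw i (hB hi))
    apply h2
    obtain ⟨z, hz1, hz2⟩ := hbad i hi
    refine ⟨z, ?_⟩
    rw [abs_le]
    constructor <;> linarith
  refine hstep.trans ?_
  have e1 : ∑ i ∈ Ω, w i * (∑ h ∈ c.support, c h * ex (h * x i)).re =
      (∑ h ∈ c.support, c h * ∑ i ∈ Ω, (w i : ℂ) * ex (h * x i)).re := by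
    have : ∑ h ∈ c.support, c h * ∑ i ∈ Ω, (w i : ℂ) * ex (h * x i) =
        ∑ i ∈ Ω, (w i : ℂ) * ∑ h ∈ c.support, c h * ex (h * x i) := by
      simp only [mul_sum]
      rw [sum_comm]
      refine sum_congr rfl fun i _ => sum_congr rfl fun h _ => by ring
    rw [this, Complex.re_sum]
    refine sum_congr rfl fun i _ => ?_
    rw [Complex.re_ofReal_mul]
  rw [e1, Complex.re_sum]
  have hterm : ∀ h ∈ c.support, (c h * ∑ i ∈ Ω, (w i : ℂ) * ex (h * x i)).re ≤
      (if h = 0 then (c 0).re else 0) + ‖c h‖ * (δ / (2 * (A + 1))) := by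
    intro h hh
    by_cases h0 : h = 0
    · rw [if_pos h0, h0]
      simp only [Int.cast_zero, zero_mul, ex_zero, mul_one]
      have e2 : (∑ i ∈ Ω, (w i : ℂ)) = ((∑ i ∈ Ω, w i : ℝ) : ℂ) := by push_cast; rfl
      rw [e2, mul_comm, Complex.re_ofReal_mul]
      have h5 : (∑ i ∈ Ω, w i) * (c 0).re ≤ (c 0).re := mul_le_of_le_one_left h3 hs
      have h6 : 0 ≤ ‖c 0‖ * (δ / (2 * (A + 1))) := by positivity
      linarith
    · rw [if_neg h0, zero_add]
      refine (Complex.re_le_norm _).trans ?_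
      rw [norm_mul]
      apply mul_le_mul_of_nonneg_left _ (norm_nonneg _)
      apply hsm h h0
      have h5 : h.natAbs ≤ ∑ h ∈ c.support, h.natAbs := single_le_sum (f := fun h : ℤ => h.natAbs) (fun _ _ => Nat.zero_le _) hh
      rw [Int.abs_eq_natAbs]
      exact_mod_cast h5
  refine (sum_le_sum hterm).trans ?_
  rw [sum_add_distrib, ← sum_mul, ← hA]
  have h5 : ∑ h ∈ c.support, (if h = 0 then (c 0).re else 0) ≤ (c 0).re := by
    rw [sum_ite_eq']
    split_ifs
    · exact le_rfl
    · exact h3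
  have h6 : A * (δ / (2 * (A + 1))) ≤ δ / 2 := by
    rw [mul_div_assoc', div_le_div_iff₀ (by positivity) (by norm_num)]
    nlinarith
  linarith

end Pool.Agent.N794.DG
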