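import Pool.Agent.N794.DG.Arc

/-!
# The probability that a random vector lies in a box modulo one
-/

set_option autoImplicit false

namespace Pool.Agent.N794.DG

open Finset MeasureTheory
open scoped Real

lemma haar_ball_ge (y : UnitAddCircle) (r : ℝ) (hr : 0 ≤ r) (hr2 : 2 * r ≤ 1) :
    2 * r ≤ (AddCircle.haarAddCircle (Metric.closedBall y r)).toReal := by
  have h1 := AddCircle.volume_closedBall (T := 1) (x := y) r
  rw [AddCircle.volume_eq_smul_haarAddCircle] at h1
  simp only [ENNReal.ofReal_one, one_smul] at h1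
  rw [h1, ENNReal.toReal_ofReal (le_min zero_le_one (by linarith)), min_eq_right hr2]

lemma int_tent_ge (y : UnitAddCircle) {r η : ℝ} (hr : 0 ≤ r) (hr2 : 2 * r ≤ 1) (hη : 0 < η) :
    2 * r ≤ ∫ t, tent y r η t ∂AddCircle.haarAddCircle := by
  have h1 : ∫ t, (Metric.closedBall y r).indicator (fun _ => (1 : ℝ)) t ∂AddCircle.haarAddCircle ≤
      ∫ t, tent y r η t ∂AddCircle.haarAddCircle := by
    apply integral_mono
    · exact (integrable_const (1 : ℝ)).indicator Metric.isClosed_closedBall.measurableSet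
    · exact (tent y r η).continuous.integrable_of_hasCompactSupport (HasCompactSupport.of_compactSpace _)
    · intro t
      by_cases ht : t ∈ Metric.closedBall y r
      · simp only [Set.indicator_of_mem ht]
        apply tent_one hη
        rw [Metric.mem_closedBall, dist_eq_norm] at ht
        exact ht
      · simp only [Set.indicator_of_notMem ht]
        exact tent_nonneg _ _ _ _
  refine le_trans ?_ h1
  rw [integral_indicator Metric.isClosed_closedBall.measurableSet, setIntegral_const, smul_eq_mul, mul_one]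
  exact haar_ball_ge y r hr hr2

/-- a trigonometric polynomial near the indicator function of an arc -/
theorem approx (μ r s η : ℝ) (hr : 0 ≤ r) (hr2 : 2 * r ≤ 1) (hs : 0 < s) (hη : 0 < η) :
    ∃ (S : Finset ℤ) (c : ℤ → ℂ) (T : ℝ → ℝ) (I : ℝ), 0 ∈ S ∧ (∀ x, 0 ≤ T x ∧ T x ≤ 1) ∧
      (∀ x, T x ≠ 0 → ∃ z : ℤ, |x - μ - z| ≤ r + s) ∧ (∀ x : ℝ, ‖∑ h ∈ S, c h * ex (h * x) - (T x : ℂ)‖ ≤ η) ∧
      2 * r ≤ I ∧ I ≤ 1 ∧ ‖c 0 - (I : ℂ)‖ ≤ η := by
  obtain ⟨y, hy⟩ : ∃ y : UnitAddCircle, y = ((μ : ℝ) : UnitAddCircle) := ⟨_, rfl⟩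
  obtain ⟨G, hG⟩ : ∃ G : C(UnitAddCircle, ℂ), ∀ t, G t = ((tent y r s t : ℝ) : ℂ) :=
    ⟨⟨fun t => ((tent y r s t : ℝ) : ℂ), by fun_prop⟩, fun _ => rfl⟩
  have hcl : G ∈ closure ((Submodule.span ℂ (Set.range (@fourier (1 : ℝ)))) : Set C(UnitAddCircle, ℂ)) := by
    rw [← Submodule.topologicalClosure_coe, span_fourier_closure_eq_top]
    trivial
  obtain ⟨P, hP, hPG⟩ := Metric.mem_closure_iff.1 hcl η hη
  obtain ⟨c, hc⟩ := (Finsupp.mem_span_range_iff_exists_finsupp).1 hP
  have hval : ∀ t : UnitAddCircle, P t = ∑ h ∈ c.support, c h * fourier h t := by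
    intro t
    rw [← hc, Finsupp.sum, ContinuousMap.sum_apply]
    rfl
  have hclose : ∀ t : UnitAddCircle, ‖P t - ((tent y r s t : ℝ) : ℂ)‖ ≤ η := by
    intro t
    have h2 := ContinuousMap.dist_apply_le_dist (f := G) (g := P) t
    rw [dist_eq_norm, hG, norm_sub_rev] at h2
    exact h2.trans hPG.le
  have hint : ∫ t, P t ∂AddCircle.haarAddCircle = c 0 := by
    simp only [hval]
    rw [integral_finset_sum]
    · have : ∀ h ∈ c.support, ∫ t : UnitAddCircle, c h * fourier h t ∂AddCircle.haarAddCircle = if h = 0 then c 0 else 0 := by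
        intro h _
        rw [integral_const_mul, int_fourier]
        split_ifs with h0
        · rw [h0, mul_one]
        · rw [mul_zero]
      rw [sum_congr rfl this, sum_ite_eq']
      split_ifs with h0
      · rfl
      · exact (Finsupp.notMem_support_iff.1 h0).symm
    · intro h _
      have hcont : Continuous fun t : UnitAddCircle => c h * fourier h t :=
        continuous_const.mul (fourier h).continuous
      exact hcont.integrable_of_hasCompactSupport (HasCompactSupport.of_compactSpace _)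
  have hPi : Integrable (fun t => P t) AddCircle.haarAddCircle :=
    P.continuous.integrable_of_hasCompactSupport (HasCompactSupport.of_compactSpace _)
  have hti : Integrable (fun t => tent y r s t) AddCircle.haarAddCircle :=
    (tent y r s).continuous.integrable_of_hasCompactSupport (HasCompactSupport.of_compactSpace _)
  have htc : Integrable (fun t => ((tent y r s t : ℝ) : ℂ)) AddCircle.haarAddCircle := hti.ofReal
  have htop : ∀ t, tent y r s t ≤ 1 := fun t => max_le zero_le_one (min_le_left _ _)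
  refine ⟨insert 0 c.support, c, fun x => tent y r s (x : UnitAddCircle), ∫ t, tent y r s t ∂AddCircle.haarAddCircle,
    mem_insert_self _ _, fun x => ⟨tent_nonneg _ _ _ _, htop _⟩, ?_, ?_, int_tent_ge y hr hr2 hs, ?_, ?_⟩
  · intro x hx
    have h1 : ‖((x : ℝ) : UnitAddCircle) - y‖ ≤ r + s := by
      by_contra h2
      push Not at h2
      apply hx
      show max 0 (min 1 ((r + s - ‖((x : ℝ) : UnitAddCircle) - y‖) / s)) = 0
      apply max_eq_left
      refine (min_le_right _ _).trans ?_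
      apply div_nonpos_of_nonpos_of_nonneg _ hs.le
      linarith
    rw [hy, ← AddCircle.coe_sub, UnitAddCircle.norm_eq] at h1
    exact ⟨round (x - μ), h1⟩
  · intro x
    have h1 := hclose (x : UnitAddCircle)
    have e : ∑ h ∈ insert 0 c.support, c h * ex (h * x) = P (x : UnitAddCircle) := by
      rw [hval, sum_insert_of_eq_zero_if_notMem]
      · refine sum_congr rfl fun h _ => ?_
        rw [fourier_ex]
      · intro h0
        rw [Finsupp.notMem_support_iff.1 h0, zero_mul]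
    rw [e]
    exact h1
  · have h1 : ∫ t, tent y r s t ∂AddCircle.haarAddCircle ≤ ∫ _t : UnitAddCircle, (1 : ℝ) ∂AddCircle.haarAddCircle := by
      apply integral_mono hti (integrable_const _)
      intro t
      exact htop t
    rw [integral_const, probReal_univ, smul_eq_mul, one_mul] at h1
    exact h1
  · have e : c 0 - ((∫ t, tent y r s t ∂AddCircle.haarAddCircle : ℝ) : ℂ) =
        ∫ t, (P t - ((tent y r s t : ℝ) : ℂ)) ∂AddCircle.haarAddCircle := by
      rw [integral_sub hPi htc, hint, integral_complex_ofReal]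
    rw [e]
    have h1 := norm_integral_le_of_norm_le_const (μ := (AddCircle.haarAddCircle : Measure UnitAddCircle))
      (f := fun t => P t - ((tent y r s t : ℝ) : ℂ)) (C := η) (Filter.Eventually.of_forall hclose)
    rw [probReal_univ, mul_one] at h1
    exact h1

lemma prod_close {ι : Type} (S : Finset ι) (a b : ι → ℂ) {η : ℝ} (hη : 0 ≤ η) (hab : ∀ i ∈ S, ‖a i - b i‖ ≤ η)
    (hb : ∀ i ∈ S, ‖b i‖ ≤ 1) : ‖∏ i ∈ S, a i - ∏ i ∈ S, b i‖ ≤ (1 + η) ^ S.card - 1 := by
  classical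
  induction S using Finset.induction_on with
  | empty => simp
  | insert i S hi ih =>
    have h1 := ih (fun j hj => hab j (mem_insert_of_mem hj)) (fun j hj => hb j (mem_insert_of_mem hj))
    have h2 : ‖∏ i ∈ S, b i‖ ≤ 1 := by
      rw [norm_prod]
      exact prod_le_one (fun _ _ => norm_nonneg _) fun j hj => hb j (mem_insert_of_mem hj)
    have h3 : ‖∏ i ∈ S, a i‖ ≤ (1 + η) ^ S.card := by
      calc ‖∏ i ∈ S, a i‖ = ‖(∏ i ∈ S, a i - ∏ i ∈ S, b i) + ∏ i ∈ S, b i‖ := by rw [sub_add_cancel]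
        _ ≤ _ := norm_add_le _ _
        _ ≤ (1 + η) ^ S.card := by linarith
    rw [prod_insert hi, prod_insert hi, card_insert_of_notMem hi]
    have e : a i * ∏ i ∈ S, a i - b i * ∏ i ∈ S, b i =
        (a i - b i) * ∏ i ∈ S, a i + b i * (∏ i ∈ S, a i - ∏ i ∈ S, b i) := by ring
    rw [e]
    refine (norm_add_le _ _).trans ?_
    rw [norm_mul, norm_mul]
    have h4 := hab i (mem_insert_self _ _)
    have h5 := hb i (mem_insert_self _ _)
    have h6 : ‖a i - b i‖ * ‖∏ i ∈ S, a i‖ ≤ η * (1 + η) ^ S.card := mul_le_mul h4 h3 (norm_nonneg _) hη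
    have h7 : ‖b i‖ * ‖∏ i ∈ S, a i - ∏ i ∈ S, b i‖ ≤ 1 * ((1 + η) ^ S.card - 1) :=
      mul_le_mul h5 h1 (norm_nonneg _) zero_le_one
    have e2 : (1 + η) ^ (S.card + 1) = (1 + η) ^ S.card + η * (1 + η) ^ S.card := by ring
    rw [e2]
    linarith

/-- **the probability of a box** -/
theorem box_prob {r : ℕ} (μ : Fin r → ℝ) (ρ s δ : ℝ) (hρ : 0 ≤ ρ) (hρ2 : 2 * ρ ≤ 1) (hs : 0 < s) (hδ : 0 < δ) :
    ∃ (H : Finset (Fin r → ℤ)) (ε : ℝ), 0 < ε ∧
    ∀ (ι : Type) (Ω : Finset ι) (w : ι → ℝ) (x : ι → Fin r → ℝ), (∀ i ∈ Ω, 0 ≤ w i) → ∑ i ∈ Ω, w i = 1 →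
    (∀ h ∈ H, h ≠ 0 → ‖∑ i ∈ Ω, (w i : ℂ) * ex (∑ j, (h j : ℝ) * x i j)‖ ≤ ε) →
    ∀ B : Finset ι, B ⊆ Ω → (∀ i ∈ Ω, (∀ j, ∃ z : ℤ, |x i j - μ j - z| ≤ ρ + s) → i ∈ B) →
      (2 * ρ) ^ r - δ ≤ ∑ i ∈ B, w i := by
  classical
  obtain ⟨η, hη0, hη1⟩ : ∃ η : ℝ, 0 < η ∧ (1 + η) ^ r - 1 ≤ δ / 4 := by
    have h1 : Filter.Tendsto (fun η : ℝ => (1 + η) ^ r - 1) (nhds 0) (nhds ((1 + 0) ^ r - 1)) := by
      apply Continuous.tendsto
      fun_prop
    rw [add_zero, one_pow, sub_self] at h1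
    have h2 : ∀ᶠ η : ℝ in nhds 0, (1 + η) ^ r - 1 ≤ δ / 4 := h1.eventually_le_const (by linarith)
    rw [Metric.eventually_nhds_iff] at h2
    obtain ⟨ε, hε, h3⟩ := h2
    refine ⟨ε / 2, by linarith, h3 ?_⟩
    rw [dist_zero_right, Real.norm_of_nonneg (by linarith)]
    linarith
  choose S c T I h0 hT hT2 hP hI1 hI2 hc0 using fun j : Fin r => approx (μ j) ρ s η hρ hρ2 hs hη0
  obtain ⟨A, hA⟩ : ∃ A : ℝ, A = ∑ h ∈ Fintype.piFinset S, ‖∏ j, c j (h j)‖ := ⟨_, rfl⟩
  have hA0 : 0 ≤ A := by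
    rw [hA]
    exact sum_nonneg fun _ _ => norm_nonneg _
  refine ⟨Fintype.piFinset S, δ / (4 * (A + 1)), by positivity, fun ι Ω w x hw hs1 hsm B hB hbox => ?_⟩
  -- the product of the tents
  have hstep : ∑ i ∈ Ω, w i * ∏ j, T j (x i j) ≤ ∑ i ∈ B, w i := by
    have h1 : ∀ i ∈ Ω, w i * ∏ j, T j (x i j) ≤ if i ∈ B then w i else 0 := by
      intro i hi
      have h2 : 0 ≤ ∏ j, T j (x i j) := prod_nonneg fun j _ => (hT j _).1
      have h3 : ∏ j, T j (x i j) ≤ 1 := prod_le_one (fun j _ => (hT j _).1) fun j _ => (hT j _).2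
      split_ifs with hiB
      · exact mul_le_of_le_one_right (hw i hi) h3
      · have h4 : ∏ j, T j (x i j) = 0 := by
          by_contra h5
          apply hiB
          apply hbox i hi
          intro j
          apply hT2 j
          intro h6
          exact h5 (prod_eq_zero (mem_univ j) h6)
        rw [h4, mul_zero]
    refine (sum_le_sum h1).trans (le_of_eq ?_)
    rw [← sum_filter]
    apply sum_congr _ fun _ _ => rfl
    ext i
    rw [mem_filter]
    exact ⟨fun h => h.2, fun h => ⟨hB h, h⟩⟩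
  refine le_trans ?_ hstep
  have hprod : ∀ i ∈ Ω, (∏ j, ∑ h ∈ S j, c j h * ex (h * x i j)).re - δ / 4 ≤ ∏ j, T j (x i j) := by
    intro i _
    have h1 := prod_close univ (fun j => ∑ h ∈ S j, c j h * ex (h * x i j)) (fun j => ((T j (x i j) : ℝ) : ℂ)) hη0.le
      (fun j _ => hP j _) (fun j _ => by
        rw [Complex.norm_real, Real.norm_of_nonneg (hT j _).1]
        exact (hT j _).2)
    rw [card_univ, Fintype.card_fin] at h1
    have h2 := (Complex.re_le_norm _).trans (h1.trans hη1)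
    rw [Complex.sub_re, ← Complex.ofReal_prod, Complex.ofReal_re] at h2
    linarith
  have h1 : (∑ i ∈ Ω, (w i : ℂ) * ∏ j, ∑ h ∈ S j, c j h * ex (h * x i j)).re - δ / 4 ≤
      ∑ i ∈ Ω, w i * ∏ j, T j (x i j) := by
    have h2 : ∑ i ∈ Ω, w i * ((∏ j, ∑ h ∈ S j, c j h * ex (h * x i j)).re - δ / 4) ≤ ∑ i ∈ Ω, w i * ∏ j, T j (x i j) :=
      sum_le_sum fun i hi => mul_le_mul_of_nonneg_left (hprod i hi) (hw i hi)
    refine le_trans (le_of_eq ?_) h2
    simp only [mul_sub]
    rw [sum_sub_distrib, ← sum_mul, hs1, one_mul, Complex.re_sum]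
    congr 1
    refine sum_congr rfl fun i _ => ?_
    rw [Complex.re_ofReal_mul]
  refine le_trans ?_ h1
  have e1 : ∑ i ∈ Ω, (w i : ℂ) * ∏ j, ∑ h ∈ S j, c j h * ex (h * x i j) =
      ∑ h ∈ Fintype.piFinset S, (∏ j, c j (h j)) * ∑ i ∈ Ω, (w i : ℂ) * ex (∑ j, (h j : ℝ) * x i j) := by
    simp only [mul_sum]
    rw [sum_comm]
    refine sum_congr rfl fun i _ => ?_
    rw [prod_univ_sum, mul_sum]
    refine sum_congr rfl fun h _ => ?_
    rw [prod_mul_distrib]
    have : ex (∑ j, (h j : ℝ) * x i j) = ∏ j, ex ((h j : ℝ) * x i j) := by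
      have key : ∀ (U : Finset (Fin r)) (f : Fin r → ℝ), ex (∑ j ∈ U, f j) = ∏ j ∈ U, ex (f j) := by
        intro U f
        induction U using Finset.induction_on with
        | empty => simp [ex_zero]
        | insert a U ha ih => rw [sum_insert ha, prod_insert ha, ex_add, ih]
      exact key univ _
    rw [this]
    ring
  rw [e1]
  have hz : (0 : Fin r → ℤ) ∈ Fintype.piFinset S := Fintype.mem_piFinset.2 fun j => h0 j
  rw [← add_sum_erase _ _ hz]
  have e2 : ∑ i ∈ Ω, (w i : ℂ) * ex (∑ j, (((0 : Fin r → ℤ) j : ℤ) : ℝ) * x i j) = 1 := by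
    have : ∀ i ∈ Ω, (w i : ℂ) * ex (∑ j, (((0 : Fin r → ℤ) j : ℤ) : ℝ) * x i j) = (w i : ℂ) := by
      intro i _
      simp only [Pi.zero_apply, Int.cast_zero, zero_mul, sum_const_zero, ex_zero, mul_one]
    rw [sum_congr rfl this, ← Complex.ofReal_sum, hs1, Complex.ofReal_one]
  rw [e2, mul_one, Complex.add_re]
  have h2 : (2 * ρ) ^ r - δ / 4 ≤ (∏ j, c j ((0 : Fin r → ℤ) j)).re := by
    have h3 := prod_close univ (fun j => c j ((0 : Fin r → ℤ) j)) (fun j => ((I j : ℝ) : ℂ)) hη0.le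
      (fun j _ => hc0 j) (fun j _ => by
        rw [Complex.norm_real, Real.norm_of_nonneg (by linarith [hI1 j])]
        exact hI2 j)
    rw [card_univ, Fintype.card_fin, norm_sub_rev] at h3
    have h4 := (Complex.re_le_norm _).trans (h3.trans hη1)
    rw [Complex.sub_re, ← Complex.ofReal_prod, Complex.ofReal_re] at h4
    have h5 : (2 * ρ) ^ r ≤ ∏ j, I j := by
      have h6 : ∏ _j : Fin r, (2 * ρ) ≤ ∏ j, I j := prod_le_prod (fun _ _ => by linarith) fun j _ => hI1 j
      rwa [prod_const, card_univ, Fintype.card_fin] at h6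
    linarith
  have h3 : -(δ / 4) ≤ (∑ h ∈ (Fintype.piFinset S).erase 0, (∏ j, c j (h j)) *
      ∑ i ∈ Ω, (w i : ℂ) * ex (∑ j, (h j : ℝ) * x i j)).re := by
    have h4 : ‖∑ h ∈ (Fintype.piFinset S).erase 0, (∏ j, c j (h j)) *
        ∑ i ∈ Ω, (w i : ℂ) * ex (∑ j, (h j : ℝ) * x i j)‖ ≤ δ / 4 := by
      refine (norm_sum_le _ _).trans ?_
      have h5 : ∀ h ∈ (Fintype.piFinset S).erase 0, ‖(∏ j, c j (h j)) *
          ∑ i ∈ Ω, (w i : ℂ) * ex (∑ j, (h j : ℝ) * x i j)‖ ≤ ‖∏ j, c j (h j)‖ * (δ / (4 * (A + 1))) := by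
        intro h hh
        rw [norm_mul]
        exact mul_le_mul_of_nonneg_left (hsm h (mem_of_mem_erase hh) (ne_of_mem_erase hh)) (norm_nonneg _)
      refine (sum_le_sum h5).trans ?_
      rw [← sum_mul]
      have h6 : ∑ h ∈ (Fintype.piFinset S).erase 0, ‖∏ j, c j (h j)‖ ≤ A := by
        rw [hA]
        exact sum_le_sum_of_subset_of_nonneg (erase_subset _ _) fun _ _ _ => norm_nonneg _
      have h7 : A * (δ / (4 * (A + 1))) ≤ δ / 4 := by
        rw [mul_div_assoc', div_le_div_iff₀ (by positivity) (by norm_num)]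
        nlinarith
      exact (mul_le_mul_of_nonneg_right h6 (by positivity)).trans h7
    have h5 := (Complex.abs_re_le_norm _).trans h4
    exact (abs_le.1 h5).1
  linarith

end Pool.Agent.N794.DG
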