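import Pool.Agent.N794.DG.Near
import Pool.Agent.N676.RV.Ex

/-!
# Random integers with small exponential sums: what is covered
-/

set_option autoImplicit false

namespace Pool.Agent.N794.DG

open Filter
open Pool.Agent.N676.RV (Flat1)

/-- **What is covered by `Always`.** (1) Sequences of random integers such that the probability of every single integer and
the exponential sums at every irrational frequency tend to zero.

(2) Random integers `c₀ + κ v`, where `v` has `k ≥ k₀` independent digits in the base `b ≥ 2`, none of which has a value with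
a probability above `1 - η` (so only `2 ^ k` values of `v` may have positive probabilities, for an arbitrary base `b`).

(3) Random members of the families `c₀ + κ y_i`, `i ∈ s`, of least residues modulo `q` with Fourier coefficients at most
`|s| / (Z (42 + 3 log q))` at the nonzero frequencies, `Z₀ ≤ Z ≤ q`.

(4) Very thin families of residues with small Fourier coefficients (`Pool.Agent.N676.RV.Examples`). -/
def Covers : Prop :=
  (∀ Q : (ℕ →₀ ℝ) → Prop, Always Q → ∀ μ : ℕ → ℕ →₀ ℝ, Weyl μ → ∀ᶠ k in atTop, Q (μ k)) ∧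
  (∀ Q : (ℕ →₀ ℝ) → Prop, Always Q → ∀ b : ℕ, 2 ≤ b → ∀ η : ℝ, 0 < η → ∀ κ : ℕ, 1 ≤ κ → ∃ k₀ : ℕ, ∀ k : ℕ, k₀ ≤ k →
    ∀ p : Fin k → Fin b → ℝ, Digits η p → ∀ c₀ : ℕ, Q (digitLaw p c₀ κ)) ∧
  (∀ Q : (ℕ →₀ ℝ) → Prop, Always Q → ∀ κ : ℕ, 1 ≤ κ → ∃ Z₀ : ℕ, ∀ (ι : Type) (q : ℕ) [NeZero q] (s : Finset ι)
    (y : ι → ZMod q) (Z : ℝ), s.Nonempty → (Z₀ : ℝ) ≤ Z → Z ≤ q → Flat1 q (1 / (Z * (42 + 3 * Real.log q))) s y →
    ∀ c₀ : ℕ, Q (resLaw s y c₀ κ)) ∧
  Pool.Agent.N676.RV.Examples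

/-- (proof of helper676 and helper384) -/
theorem examples : Pool.Agent.N676.RV.Examples := by
  refine ⟨fun ι _ _ q _ η τ s y h => Pool.Agent.N676.RV.VF.flat_pi q η s y h, ?_,
    fun d D hd => Pool.Agent.N676.RV.VF.flat_poly d D hd⟩
  obtain ⟨P₀, h0⟩ := Pool.Agent.N384.MQ.flatK_quot
  exact ⟨P₀, fun p hp _ K hK => ⟨fun R S => h0 p hp K hK R S,
    fun H s hs hc x hx => Pool.Agent.N384.MQ.flatK_coset p H s hs K hK hc x hx,
    fun A B g k hAB => Pool.Agent.N384.MQ.flatK_prod p A B g k K hK hAB⟩⟩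

theorem covers : Covers :=
  ⟨fun _ hQ _ hμ => hQ.weyl hμ, fun _ hQ _ hb _ hη _ hκ => hQ.digits hb hη hκ, fun _ hQ _ hκ => hQ.residues hκ,
    examples⟩

end Pool.Agent.N794.DG
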