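import Pool.Agent.N794.DG.Arc

/-!
# Multiples of random integers with independent digits modulo one
-/

set_option autoImplicit false

namespace Pool.Agent.N794.DG

open Finset
open scoped Real

/-- the integer with the digits `ε j` -/
def value {b k : ℕ} (ε : Fin k → Fin b) : ℕ := ∑ j, (ε j : ℕ) * b ^ (j : ℕ)

/-- `p j x` are the probabilities of the digits `x` at the places `j`; none is above `1 - η` -/
structure Digits (η : ℝ) {b k : ℕ} (p : Fin k → Fin b → ℝ) : Prop where
  nonneg : ∀ j x, 0 ≤ p j x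
  sum_one : ∀ j, ∑ x, p j x = 1
  le : ∀ j x, p j x ≤ 1 - η

open Classical in
/-- the probability that the random integer has the property -/
noncomputable def prob {b k : ℕ} (p : Fin k → Fin b → ℝ) (P : ℕ → Prop) : ℝ :=
  ∑ ε : Fin k → Fin b with P (value ε), ∏ j, p j (ε j)

lemma value_inj {b k : ℕ} : Function.Injective (value (b := b) (k := k)) := by
  intro ε ε' h
  apply finFunctionFinEquiv.injective
  apply Fin.ext
  rw [finFunctionFinEquiv_apply, finFunctionFinEquiv_apply]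
  exact h

/-- the distance to the nearest integer grows -/
lemma dist_mul {b : ℕ} (hb : 2 ≤ b) {y : ℝ} (h : |y - round y| < 1 / (2 * b)) :
    |b * y - round (b * y)| = b * |y - round y| := by
  have hb0 : (0 : ℝ) < b := by
    have : (2 : ℝ) ≤ b := by exact_mod_cast hb
    linarith
  have h1 : |(b : ℝ) * y - ((b * round y : ℤ) : ℝ)| = b * |y - round y| := by
    push_cast
    rw [← mul_sub, abs_mul, abs_of_pos hb0]
  have h2 : (b : ℝ) * |y - round y| < 1 / 2 := by
    calc (b : ℝ) * |y - round y| < b * (1 / (2 * b)) := mul_lt_mul_of_pos_left h hb0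
      _ = 1 / 2 := by field_simp
  have h3 := round_le ((b : ℝ) * y) ((b : ℤ) * round y)
  rw [h1] at h3
  have h4 : round ((b : ℝ) * y) = (b : ℤ) * round y := by
    have h5 : |((round ((b : ℝ) * y) - (b : ℤ) * round y : ℤ) : ℝ)| < 1 := by
      push_cast
      push_cast at h1
      calc |((round ((b : ℝ) * y) : ℤ) : ℝ) - b * (round y : ℝ)| =
            |(b * y - b * (round y : ℝ)) - (b * y - (round ((b : ℝ) * y) : ℝ))| := by
              congr 1
              ring
        _ ≤ |b * y - b * (round y : ℝ)| + |b * y - (round ((b : ℝ) * y) : ℝ)| := abs_sub _ _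
        _ < 1 := by
          rw [h1]
          linarith
    have h6 : |round ((b : ℝ) * y) - (b : ℤ) * round y| < 1 := by exact_mod_cast h5
    have h7 := Int.abs_lt_one_iff.1 h6
    omega
  rw [h4]
  exact h1

/-- there are infinitely many places with a large distance -/
lemma inf_good {b : ℕ} (hb : 2 ≤ b) {θ : ℝ} (hθ : Irrational θ) (j₀ : ℕ) :
    ∃ j, j₀ ≤ j ∧ 1 / (2 * (b : ℝ)) ≤ |b ^ j * θ - round ((b : ℝ) ^ j * θ)| := by
  by_contra hcon
  push Not at hcon
  have hb1 : (1 : ℝ) < b := by exact_mod_cast (by omega : 1 < b)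
  have hgrow : ∀ i : ℕ, |(b : ℝ) ^ (j₀ + i) * θ - round ((b : ℝ) ^ (j₀ + i) * θ)| =
      b ^ i * |(b : ℝ) ^ j₀ * θ - round ((b : ℝ) ^ j₀ * θ)| := by
    intro i
    induction i with
    | zero => simp
    | succ i ih =>
      have e : (b : ℝ) ^ (j₀ + (i + 1)) * θ = b * (b ^ (j₀ + i) * θ) := by ring
      rw [e, dist_mul hb (hcon (j₀ + i) (by omega)), ih]
      ring
  have hpos : 0 < |(b : ℝ) ^ j₀ * θ - round ((b : ℝ) ^ j₀ * θ)| := by
    rw [abs_pos, sub_ne_zero]
    have h1 : Irrational (((b ^ j₀ : ℕ) : ℝ) * θ) := hθ.natCast_mul (by positivity)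
    push_cast at h1
    exact h1.ne_int _
  obtain ⟨i, hi⟩ := pow_unbounded_of_one_lt (1 / |(b : ℝ) ^ j₀ * θ - round ((b : ℝ) ^ j₀ * θ)|) hb1
  have h1 := hcon (j₀ + i) (by omega)
  rw [hgrow] at h1
  rw [div_lt_iff₀ hpos] at hi
  have h2 : 1 / (2 * (b : ℝ)) ≤ 1 := by
    rw [div_le_one (by linarith)]
    linarith
  linarith

lemma cos_bound (y : ℝ) : 8 * |y - round y| ^ 2 ≤ 1 - Real.cos (2 * π * y) := by
  obtain ⟨u, hu⟩ : ∃ u : ℝ, u = y - round y := ⟨_, rfl⟩
  have h1 : |u| ≤ 1 / 2 := by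
    rw [hu]
    exact abs_sub_round y
  have e1 : Real.cos (2 * π * y) = Real.cos (2 * (π * |u|)) := by
    have e2 : 2 * π * y = 2 * (π * u) + (round y : ℤ) * (2 * π) := by
      rw [hu]
      ring
    rw [e2, Real.cos_add_int_mul_two_pi]
    rcases abs_choice u with h | h
    · rw [h]
    · rw [h, ← Real.cos_neg]
      congr 1
      ring
  rw [← hu, e1, Real.cos_two_mul, ← Real.sin_sq_add_cos_sq (π * |u|)]
  have h2 : 2 / π * (π * |u|) ≤ Real.sin (π * |u|) := by
    apply Real.mul_le_sin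
    · positivity
    · have := Real.pi_pos
      nlinarith
  have h3 : 2 / π * (π * |u|) = 2 * |u| := by
    field_simp
  rw [h3] at h2
  have h4 : 0 ≤ 2 * |u| := by positivity
  nlinarith

/-- one random digit -/
lemma factor {b : ℕ} (hb : 2 ≤ b) {η : ℝ} (hη : 0 < η) (p : Fin b → ℝ) (h0 : ∀ x, 0 ≤ p x) (h1 : ∑ x, p x = 1)
    (h2 : ∀ x, p x ≤ 1 - η) (t : ℝ) :
    ‖∑ x, (p x : ℂ) * ex (t * (x : ℕ))‖ ≤ 1 ∧
    (1 / (2 * (b : ℝ)) ≤ |((b - 1).factorial : ℝ) * t - round (((b - 1).factorial : ℝ) * t)| →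
      ‖∑ x, (p x : ℂ) * ex (t * (x : ℕ))‖ ≤ 1 - η / ((b : ℝ) ^ 4 * ((b - 1).factorial : ℝ) ^ 2)) := by
  have hb0 : (0 : ℝ) < b := by exact_mod_cast (by omega : 0 < b)
  constructor
  · refine (norm_sum_le _ _).trans (le_of_eq ?_)
    rw [← h1]
    refine sum_congr rfl fun x _ => ?_
    rw [norm_mul, norm_ex, mul_one, Complex.norm_real, Real.norm_of_nonneg (h0 x)]
  · intro hF
    -- two digits
    obtain ⟨x₀, hx₀⟩ : ∃ x₀ : Fin b, 1 / (b : ℝ) ≤ p x₀ := by
      by_contra hcon
      push Not at hcon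
      have hne : (univ : Finset (Fin b)).Nonempty := ⟨⟨0, by omega⟩, mem_univ _⟩
      have h3 := sum_lt_sum_of_nonempty hne (fun x _ => hcon x)
      rw [h1, sum_const, card_univ, Fintype.card_fin, nsmul_eq_mul, mul_one_div_cancel hb0.ne'] at h3
      exact lt_irrefl _ h3
    obtain ⟨x₁, hx₁, hne⟩ : ∃ x₁ : Fin b, η / (b : ℝ) ≤ p x₁ ∧ x₁ ≠ x₀ := by
      by_contra hcon
      push Not at hcon
      have h3 : ∑ x ∈ univ.erase x₀, p x < η := by
        have h4 : ∀ x ∈ univ.erase x₀, p x ≤ η / b := by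
          intro x hx
          by_contra h5
          exact (mem_erase.1 hx).1 (hcon x (le_of_lt (not_le.1 h5)))
        refine lt_of_le_of_lt (sum_le_card_nsmul _ _ _ h4) ?_
        rw [card_erase_of_mem (mem_univ _), card_univ, Fintype.card_fin, nsmul_eq_mul, Nat.cast_sub (by omega)]
        push_cast
        have : ((b : ℝ) - 1) * (η / b) = η - η / b := by field_simp
        rw [this]
        have : 0 < η / b := by positivity
        linarith
      have h4 : ∑ x ∈ univ.erase x₀, p x = 1 - p x₀ := by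
        rw [← h1, ← add_sum_erase univ p (mem_univ x₀)]
        ring
      have := h2 x₀
      linarith
    -- the square of the norm
    obtain ⟨a, ha⟩ : ∃ a : Fin b → ℝ, a = fun x : Fin b => 2 * π * (t * ((x : ℕ) : ℝ)) := ⟨_, rfl⟩
    have hsq : ‖∑ x, (p x : ℂ) * ex (t * (x : ℕ))‖ ^ 2 = ∑ x, ∑ y, p x * p y * Real.cos (a x - a y) := by
      have hre : (∑ x, (p x : ℂ) * ex (t * (x : ℕ))).re = ∑ x, p x * Real.cos (a x) := by
        rw [Complex.re_sum]
        refine sum_congr rfl fun x _ => ?_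
        rw [Complex.re_ofReal_mul]
        congr 1
        rw [ha]
        unfold ex
        have : (2 * π * Complex.I * ((t * (x : ℕ) : ℝ) : ℂ) : ℂ) = ((2 * π * (t * (x : ℕ)) : ℝ) : ℂ) * Complex.I := by
          push_cast
          ring
        rw [this, Complex.exp_ofReal_mul_I_re]
      have him : (∑ x, (p x : ℂ) * ex (t * (x : ℕ))).im = ∑ x, p x * Real.sin (a x) := by
        rw [Complex.im_sum]
        refine sum_congr rfl fun x _ => ?_
        rw [Complex.im_ofReal_mul]
        congr 1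
        rw [ha]
        unfold ex
        have : (2 * π * Complex.I * ((t * (x : ℕ) : ℝ) : ℂ) : ℂ) = ((2 * π * (t * (x : ℕ)) : ℝ) : ℂ) * Complex.I := by
          push_cast
          ring
        rw [this, Complex.exp_ofReal_mul_I_im]
      rw [Complex.sq_norm, Complex.normSq_apply, hre, him, sum_mul_sum, sum_mul_sum, ← sum_add_distrib]
      refine sum_congr rfl fun x _ => ?_
      rw [← sum_add_distrib]
      refine sum_congr rfl fun y _ => ?_
      rw [Real.cos_sub]
      ring
    have hone : (1 : ℝ) = ∑ x, ∑ y, p x * p y := by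
      rw [← sum_mul_sum, h1, mul_one]
    have hgap : p x₁ * p x₀ * (1 - Real.cos (a x₁ - a x₀)) ≤ 1 - ‖∑ x, (p x : ℂ) * ex (t * (x : ℕ))‖ ^ 2 := by
      have e : 1 - ‖∑ x, (p x : ℂ) * ex (t * (x : ℕ))‖ ^ 2 = ∑ x, ∑ y, p x * p y * (1 - Real.cos (a x - a y)) := by
        rw [hsq]
        conv_lhs => rw [hone]
        rw [← sum_sub_distrib]
        refine sum_congr rfl fun x _ => ?_
        rw [← sum_sub_distrib]
        refine sum_congr rfl fun y _ => ?_
        ring
      rw [e]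
      have hnn : ∀ x y, 0 ≤ p x * p y * (1 - Real.cos (a x - a y)) := fun x y =>
        mul_nonneg (mul_nonneg (h0 x) (h0 y)) (by linarith [Real.cos_le_one (a x - a y)])
      refine le_trans ?_ (single_le_sum (f := fun x => ∑ y, p x * p y * (1 - Real.cos (a x - a y)))
        (fun x _ => sum_nonneg fun y _ => hnn x y) (mem_univ x₁))
      exact single_le_sum (f := fun y => p x₁ * p y * (1 - Real.cos (a x₁ - a y))) (fun y _ => hnn x₁ y) (mem_univ x₀)
    -- the difference of the digits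
    obtain ⟨Δ, hΔ⟩ : ∃ Δ : ℤ, Δ = ((x₁ : ℕ) : ℤ) - ((x₀ : ℕ) : ℤ) := ⟨_, rfl⟩
    have hΔ0 : Δ ≠ 0 := by
      intro h
      apply hne
      apply Fin.ext
      omega
    have hΔd : Δ ∣ (((b - 1).factorial : ℕ) : ℤ) := by
      have h3 : Δ.natAbs ≤ b - 1 := by
        have := x₁.2
        have := x₀.2
        omega
      have h4 : Δ.natAbs ∣ (b - 1).factorial := Nat.dvd_factorial (Int.natAbs_pos.2 hΔ0) h3
      exact Int.natAbs_dvd.1 (Int.natCast_dvd_natCast.2 h4)
    obtain ⟨m, hm⟩ := hΔd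
    have hF0 : (0 : ℝ) < ((b - 1).factorial : ℝ) := by exact_mod_cast Nat.factorial_pos _
    have hm1 : |(m : ℝ)| ≤ ((b - 1).factorial : ℝ) := by
      have h3 : |(((b - 1).factorial : ℕ) : ℤ)| = |Δ| * |m| := by rw [hm, abs_mul]
      have h4 : 1 ≤ |Δ| := Int.one_le_abs hΔ0
      have h5 : |m| ≤ (((b - 1).factorial : ℕ) : ℤ) := by
        rw [← abs_of_nonneg (Int.natCast_nonneg ((b - 1).factorial)), h3]
        nlinarith [abs_nonneg m]
      exact_mod_cast h5
    obtain ⟨u, hu⟩ : ∃ u : ℝ, u = |t * Δ - round (t * Δ)| := ⟨_, rfl⟩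
    have hu1 : 1 / (2 * (b : ℝ)) ≤ ((b - 1).factorial : ℝ) * u := by
      refine hF.trans ((round_le _ (m * round (t * Δ))).trans ?_)
      have e : ((b - 1).factorial : ℝ) * t - ((m * round (t * (Δ : ℝ)) : ℤ) : ℝ) = m * (t * Δ - round (t * (Δ : ℝ))) := by
        have h3 : ((b - 1).factorial : ℝ) = Δ * m := by exact_mod_cast hm
        rw [h3]
        push_cast
        ring
      rw [e, abs_mul, ← hu]
      apply mul_le_mul_of_nonneg_right hm1
      rw [hu]
      exact abs_nonneg _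
    have hcos : 8 * u ^ 2 ≤ 1 - Real.cos (a x₁ - a x₀) := by
      have h3 := cos_bound (t * Δ)
      rw [← hu] at h3
      have e : a x₁ - a x₀ = 2 * π * (t * Δ) := by
        rw [ha, hΔ]
        push_cast
        ring
      rw [e]
      exact h3
    have hu2 : 1 / (2 * (b : ℝ) * ((b - 1).factorial : ℝ)) ≤ u := by
      rw [div_le_iff₀ (by positivity)]
      rw [div_le_iff₀ (by positivity)] at hu1
      linarith
    have hpp : 1 / (b : ℝ) * (η / b) ≤ p x₁ * p x₀ := by
      rw [mul_comm (p x₁)]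
      exact mul_le_mul hx₀ hx₁ (by positivity) (h0 x₀)
    have hu3 : (1 / (2 * (b : ℝ) * ((b - 1).factorial : ℝ))) ^ 2 ≤ u ^ 2 := pow_le_pow_left₀ (by positivity) hu2 2
    obtain ⟨c, hc⟩ : ∃ c : ℝ, c = η / ((b : ℝ) ^ 4 * ((b - 1).factorial : ℝ) ^ 2) := ⟨_, rfl⟩
    have hkey : 2 * c ≤ 1 - ‖∑ x, (p x : ℂ) * ex (t * (x : ℕ))‖ ^ 2 := by
      refine le_trans (le_trans ?_ (mul_le_mul hpp (le_trans (mul_le_mul_of_nonneg_left hu3 (by norm_num)) hcos) (by positivity)
        (mul_nonneg (h0 _) (h0 _)))) hgap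
      rw [hc]
      apply le_of_eq
      field_simp
      norm_num
    rw [← hc]
    have hc0 : 0 < c := by
      rw [hc]
      positivity
    have hn0 := norm_nonneg (∑ x, (p x : ℂ) * ex (t * (x : ℕ)))
    by_contra hcon
    push Not at hcon
    have hc1 : c ≤ 1 := by nlinarith
    nlinarith

end Pool.Agent.N794.DG
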