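import Pool.Agent.N384.MQ.Four
import Pool.Agent.N676.RV.Defs
import Pool.Agent.N794.DG.Arc

/-!
# Multiples of least residues modulo one
-/

set_option autoImplicit false

namespace Pool.Agent.N794.DG

open Finset
open Pool.Agent.N676.RV (Flat1)
open Pool.Agent.N384.MQ (Sm)
open Pool.Agent.H807R2.Dav (ee)

variable {ι : Type}

open Classical in
/-- the distribution of the least residues -/
noncomputable def dis {q : ℕ} (s : Finset ι) (y : ι → ZMod q) (v : ℕ) : ℂ :=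
  ((s.filter (fun i => (y i).val = v)).card : ℂ) / s.card

open Classical in
lemma dis_sum {q : ℕ} (s : Finset ι) (y : ι → ZMod q) (g : ℕ → ℂ) (t : Finset ℕ) :
    ∑ v ∈ t, dis s y v * g v = (1 / (s.card : ℂ)) * ∑ i ∈ s.filter (fun i => (y i).val ∈ t), g (y i).val := by
  have hmaps : ∀ i ∈ s.filter (fun i => (y i).val ∈ t), (y i).val ∈ t := fun i hi => (mem_filter.1 hi).2
  rw [← sum_fiberwise_of_maps_to (g := fun i => (y i).val) hmaps, mul_sum]
  refine sum_congr rfl fun v hv => ?_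
  have e : (s.filter (fun i => (y i).val ∈ t)).filter (fun i => (y i).val = v) = s.filter (fun i => (y i).val = v) := by
    ext i
    simp only [mem_filter]
    constructor
    · rintro ⟨⟨h1, -⟩, h2⟩
      exact ⟨h1, h2⟩
    · rintro ⟨h1, h2⟩
      exact ⟨⟨h1, by rw [h2]; exact hv⟩, h2⟩
  rw [e]
  have h1 : ∑ i ∈ s.filter (fun i => (y i).val = v), g (y i).val = ((s.filter (fun i => (y i).val = v)).card : ℂ) * g v := by
    rw [← nsmul_eq_mul, ← sum_const]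
    refine sum_congr rfl fun i hi => ?_
    rw [(mem_filter.1 hi).2]
  rw [h1]
  unfold dis
  ring

open Classical in
lemma dis_all {q : ℕ} [NeZero q] (s : Finset ι) (y : ι → ZMod q) (g : ℕ → ℂ) :
    ∑ v ∈ range q, dis s y v * g v = (1 / (s.card : ℂ)) * ∑ i ∈ s, g (y i).val := by
  rw [dis_sum]
  have : s.filter (fun i => (y i).val ∈ range q) = s := by
    rw [filter_eq_self]
    intro i _
    exact mem_range.2 (ZMod.val_lt _)
  rw [this]

lemma std_ee (q : ℕ) [NeZero q] (n : ℤ) : (ZMod.stdAddChar ((n : ℤ) : ZMod q) : ℂ) = ee ((n : ℝ) / q) := by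
  rw [ZMod.stdAddChar_coe]
  unfold ee
  congr 1
  push_cast
  ring

lemma dis_sm {q : ℕ} [NeZero q] {η : ℝ} {s : Finset ι} (hs : s.Nonempty) {y : ι → ZMod q} (hf : Flat1 q η s y) :
    Sm q η (dis s y) := by
  have hq1 : 1 ≤ q := Nat.pos_of_ne_zero (NeZero.ne q)
  have hs0 : (0 : ℝ) < s.card := by exact_mod_cast hs.card_pos
  have hs0' : (s.card : ℂ) ≠ 0 := by exact_mod_cast hs0.ne'
  refine ⟨hq1, ?_, fun h hh => ?_⟩
  · have h1 := dis_all s y (fun _ => 1)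
    simp only [mul_one, sum_const, nsmul_eq_mul] at h1
    rw [h1, one_div, inv_mul_cancel₀ hs0']
    simp
  · rw [dis_all s y (fun v => ee ((h : ℝ) * v / q))]
    have h1 : ∑ i ∈ s, ee ((h : ℝ) * (((y i).val : ℕ) : ℝ) / q) = ∑ i ∈ s, (ZMod.stdAddChar ((h : ZMod q) * y i) : ℂ) := by
      refine sum_congr rfl fun i _ => ?_
      have e1 : (h : ZMod q) * y i = ((h * ((y i).val : ℤ) : ℤ) : ZMod q) := by
        push_cast
        rw [ZMod.natCast_zmod_val]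
      rw [e1, std_ee]
      congr 1
      push_cast
      ring
    have h2 := hf (h : ZMod q) (by
      intro h0
      exact hh ((ZMod.intCast_zmod_eq_zero_iff_dvd h q).1 h0))
    rw [h1, norm_mul, norm_div, norm_one, Complex.norm_natCast]
    calc 1 / (s.card : ℝ) * ‖∑ i ∈ s, (ZMod.stdAddChar ((h : ZMod q) * y i) : ℂ)‖ ≤
        1 / (s.card : ℝ) * (η * s.card) := mul_le_mul_of_nonneg_left h2 (by positivity)
      _ = η := by field_simp

/-- **the exponential sums are small** -/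
theorem res_small {θ : ℝ} (hθ : Irrational θ) {ε : ℝ} (hε : 0 < ε) :
    ∃ Z₀ : ℝ, 1 ≤ Z₀ ∧ ∀ (ι : Type) (q : ℕ) [NeZero q] (s : Finset ι) (y : ι → ZMod q) (Z : ℝ), s.Nonempty → Z₀ ≤ Z →
      Z ≤ q → Flat1 q (1 / (Z * (42 + 3 * Real.log q))) s y →
      ‖∑ i ∈ s, ((1 / (s.card : ℝ) : ℝ) : ℂ) * ex (θ * ((y i).val : ℕ))‖ ≤ ε := by
  obtain ⟨δ, hδ⟩ : ∃ δ : ℝ, δ = |θ - round θ| := ⟨_, rfl⟩
  have hδ0 : 0 < δ := by
    rw [hδ, abs_pos, sub_ne_zero]
    exact hθ.ne_int _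
  have hδm : ∀ m : ℤ, δ ≤ |θ - m| := fun m => by
    rw [hδ]
    exact round_le θ m
  refine ⟨1 + (1 / δ + 1) / ε, by
    have : 0 < (1 / δ + 1) / ε := by positivity
    linarith, fun ι q _ s y Z hs hZ hZq hf => ?_⟩
  have hq1 : 1 ≤ q := Nat.pos_of_ne_zero (NeZero.ne q)
  have hq1' : (1 : ℝ) ≤ q := by exact_mod_cast hq1
  have hlog := Real.log_nonneg hq1'
  have hZ0 : 0 < Z := by
    have : 0 < (1 / δ + 1) / ε := by positivity
    linarith
  have h1 := (dis_sm hs hf).char (by positivity) θ δ hδ0 hδm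
  rw [dis_all s y (fun v => ee (θ * v)), mul_sum] at h1
  have e1 : ∑ i ∈ s, ((1 / (s.card : ℝ) : ℝ) : ℂ) * ex (θ * ((y i).val : ℕ)) =
      ∑ i ∈ s, 1 / (s.card : ℂ) * ee (θ * ((y i).val : ℕ)) := by
    refine sum_congr rfl fun i _ => ?_
    push_cast
    rfl
  rw [e1]
  refine h1.trans ?_
  have e2 : 1 / (Z * (42 + 3 * Real.log q)) * (42 + 3 * Real.log q) = 1 / Z := by
    have : (42 + 3 * Real.log q) ≠ 0 := by positivity
    field_simp
  rw [e2]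
  have h2 : 1 / (δ * q) ≤ 1 / δ / Z := by
    rw [div_div]
    exact one_div_le_one_div_of_le (by positivity) (mul_le_mul_of_nonneg_left hZq hδ0.le)
  have h3 : (1 / δ + 1) / Z ≤ ε := by
    rw [div_le_iff₀ hZ0]
    have h4 : (1 / δ + 1) / ε ≤ Z := by linarith
    rw [div_le_iff₀ hε] at h4
    linarith
  calc 1 / (δ * q) + 1 / Z ≤ 1 / δ / Z + 1 / Z := by linarith
    _ = (1 / δ + 1) / Z := by ring
    _ ≤ ε := h3

open Classical in
/-- few small residues -/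
lemma res_few {q : ℕ} [NeZero q] (s : Finset ι) (hs : s.Nonempty) (y : ι → ZMod q) {Z : ℝ} (hZ0 : 0 < Z) (hZq : Z ≤ q)
    (hf : Flat1 q (1 / (Z * (42 + 3 * Real.log q))) s y) (n₀ : ℕ) (hn : n₀ ≤ q) :
    ((s.filter (fun i => (y i).val < n₀)).card : ℝ) ≤ (n₀ + 1) / Z * s.card := by
  have hq1 : 1 ≤ q := Nat.pos_of_ne_zero (NeZero.ne q)
  have hq1' : (1 : ℝ) ≤ q := by exact_mod_cast hq1
  have hlog := Real.log_nonneg hq1'
  have hs0 : (0 : ℝ) < s.card := by exact_mod_cast hs.card_pos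
  have h1 := (dis_sm hs hf).interval (by positivity) 0 n₀ (Nat.zero_le _) hn
  have e0 := dis_sum s y (fun _ => 1) (Ico 0 n₀)
  simp only [mul_one, sum_const, nsmul_eq_mul] at e0
  rw [e0, norm_mul, norm_div, norm_one, Complex.norm_natCast, Complex.norm_natCast, Nat.cast_zero, sub_zero] at h1
  have e1 : s.filter (fun i => (y i).val < n₀) = s.filter (fun i => (y i).val ∈ Ico 0 n₀) := by
    ext i
    simp
  rw [e1]
  have e2 : 1 / (Z * (42 + 3 * Real.log q)) * (42 + 3 * Real.log q) = 1 / Z := by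
    have : (42 + 3 * Real.log q) ≠ 0 := by positivity
    field_simp
  rw [e2] at h1
  have h2 : (n₀ : ℝ) / q ≤ n₀ / Z := div_le_div_of_nonneg_left (Nat.cast_nonneg _) hZ0 hZq
  have h3 : 1 / (s.card : ℝ) * ((s.filter (fun i => (y i).val ∈ Ico 0 n₀)).card : ℝ) ≤ (n₀ + 1) / Z := by
    calc _ ≤ (n₀ : ℝ) / q + 1 / Z := h1
      _ ≤ n₀ / Z + 1 / Z := by linarith
      _ = (n₀ + 1) / Z := by ring
  rw [one_div, inv_mul_le_iff₀ hs0] at h3
  linarith

/-- **the proportion of the residues in an arc** -/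
theorem res_arc {α : ℝ} (hα : Irrational α) (β : ℝ) {lo hi : ℝ} (hlh : lo ≤ hi) {δ : ℝ} (hδ : 0 < δ) {κ : ℕ}
    (hκ : 1 ≤ κ) (n₀ : ℕ) (bad : ℕ → Prop)
    (hbad : ∀ m : ℕ, n₀ ≤ m → bad m → ∃ z : ℤ, lo ≤ α * m + β - z ∧ α * m + β - z ≤ hi) :
    ∃ Z₀ : ℕ, ∀ (ι : Type) (q : ℕ) [NeZero q] (s : Finset ι) (y : ι → ZMod q) (Z : ℝ), (Z₀ : ℝ) ≤ Z → Z ≤ q →
      Flat1 q (1 / (Z * (42 + 3 * Real.log q))) s y → ∀ c₀ : ℕ,
      ({i : ι | i ∈ s ∧ bad (c₀ + κ * (y i).val)}.ncard : ℝ) ≤ (hi - lo + δ) * s.card := by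
  classical
  obtain ⟨H, ε, hε, harc⟩ := arc_prob lo hi (δ / 2) hlh (by linarith)
  have hirr : ∀ h : ℤ, h ≠ 0 → Irrational ((h : ℝ) * α * κ) := by
    intro h h0
    exact (hα.intCast_mul h0).mul_natCast (by omega)
  have hk : ∀ h : ℤ, ∃ Z₀ : ℝ, h ≠ 0 → ∀ (ι : Type) (q : ℕ) [NeZero q] (s : Finset ι) (y : ι → ZMod q) (Z : ℝ),
      s.Nonempty → Z₀ ≤ Z → Z ≤ q → Flat1 q (1 / (Z * (42 + 3 * Real.log q))) s y →
      ‖∑ i ∈ s, ((1 / (s.card : ℝ) : ℝ) : ℂ) * ex ((h : ℝ) * α * κ * ((y i).val : ℕ))‖ ≤ ε := by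
    intro h
    by_cases h0 : h = 0
    · exact ⟨0, fun h1 => absurd h0 h1⟩
    · obtain ⟨k₀, -, hk₀⟩ := res_small (hirr h h0) hε
      exact ⟨k₀, fun _ => hk₀⟩
  choose K hK using hk
  obtain ⟨Z₁, hZ₁⟩ := exists_nat_ge (2 * (n₀ + 1) / δ)
  refine ⟨Z₁ + n₀ + 1 + (Icc (-(H : ℤ)) H).sup (fun h => ⌈K h⌉₊), fun ι q _ s y Z hZ hZq hf c₀ => ?_⟩
  push_cast at hZ
  have hsup0 : (0 : ℝ) ≤ (((Icc (-(H : ℤ)) H).sup (fun h => ⌈K h⌉₊) : ℕ) : ℝ) := Nat.cast_nonneg _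
  have hZ1 : (0 : ℝ) ≤ Z₁ := Nat.cast_nonneg _
  have hn0 : (0 : ℝ) ≤ n₀ := Nat.cast_nonneg _
  have hZ0 : 0 < Z := by linarith
  rcases s.eq_empty_or_nonempty with rfl | hs
  · have : {i : ι | i ∈ (∅ : Finset ι) ∧ bad (c₀ + κ * (y i).val)} = ∅ := by
      ext i
      simp
    rw [this]
    simp
  have hs0 : (0 : ℝ) < s.card := by exact_mod_cast hs.card_pos
  have hsub : {i : ι | i ∈ s ∧ bad (c₀ + κ * (y i).val)} ⊆
      ((s.filter (fun i => bad (c₀ + κ * (y i).val) ∧ n₀ ≤ c₀ + κ * (y i).val) ∪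
        s.filter (fun i => (y i).val < n₀) : Finset ι) : Set ι) := by
    rintro i ⟨hi1, hi2⟩
    rw [mem_coe, mem_union, mem_filter, mem_filter]
    by_cases h2 : n₀ ≤ c₀ + κ * (y i).val
    · exact Or.inl ⟨hi1, hi2, h2⟩
    · right
      push Not at h2
      have : (y i).val ≤ κ * (y i).val := Nat.le_mul_of_pos_left _ (by omega)
      exact ⟨hi1, by omega⟩
  have hcard : ({i : ι | i ∈ s ∧ bad (c₀ + κ * (y i).val)}.ncard : ℝ) ≤
      ((s.filter (fun i => bad (c₀ + κ * (y i).val) ∧ n₀ ≤ c₀ + κ * (y i).val)).card : ℝ) +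
        ((s.filter (fun i => (y i).val < n₀)).card : ℝ) := by
    have h1 := Set.ncard_le_ncard hsub (Finset.finite_toSet _)
    rw [Set.ncard_coe_finset] at h1
    exact_mod_cast h1.trans (card_union_le _ _)
  refine hcard.trans ?_
  have h2 : ((s.filter (fun i => (y i).val < n₀)).card : ℝ) ≤ δ / 2 * s.card := by
    refine (res_few s hs y hZ0 hZq hf n₀ ?_).trans ?_
    · have : (n₀ : ℝ) ≤ q := by linarith
      exact_mod_cast this
    · apply mul_le_mul_of_nonneg_right _ hs0.le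
      rw [div_le_iff₀ hZ0]
      have h3 : 2 * ((n₀ : ℝ) + 1) / δ ≤ Z := by linarith
      rw [div_le_iff₀ hδ] at h3
      linarith
  have h3 : ((s.filter (fun i => bad (c₀ + κ * (y i).val) ∧ n₀ ≤ c₀ + κ * (y i).val)).card : ℝ) ≤
      (hi - lo + δ / 2) * s.card := by
    have h4 := harc ι s (fun _ => 1 / (s.card : ℝ)) (fun i => α * ((c₀ + κ * (y i).val : ℕ) : ℝ) + β)
      (fun _ _ => by positivity) (by rw [sum_const, nsmul_eq_mul, mul_one_div_cancel hs0.ne']) (fun h h0 hh => by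
        have h4 : ∑ i ∈ s, ((1 / (s.card : ℝ) : ℝ) : ℂ) * ex (h * (α * ((c₀ + κ * (y i).val : ℕ) : ℝ) + β)) =
            ex (h * (α * c₀ + β)) * ∑ i ∈ s, ((1 / (s.card : ℝ) : ℝ) : ℂ) * ex ((h : ℝ) * α * κ * ((y i).val : ℕ)) := by
          rw [mul_sum]
          refine sum_congr rfl fun i _ => ?_
          have e : (h : ℝ) * (α * ((c₀ + κ * (y i).val : ℕ) : ℝ) + β) =
              h * (α * c₀ + β) + (h : ℝ) * α * κ * ((y i).val : ℕ) := by
            push_cast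
            ring
          rw [e, ex_add]
          ring
        rw [h4, norm_mul, norm_ex, one_mul]
        refine hK h h0 ι q s y Z hs ?_ hZq hf
        have h5 : h ∈ Icc (-(H : ℤ)) H := by
          rw [mem_Icc]
          exact abs_le.1 hh
        have h6 : (⌈K h⌉₊ : ℝ) ≤ (((Icc (-(H : ℤ)) H).sup (fun h => ⌈K h⌉₊) : ℕ) : ℝ) := by
          exact_mod_cast le_sup (f := fun h => ⌈K h⌉₊) h5
        have h7 := Nat.le_ceil (K h)
        linarith)
      (s.filter (fun i => bad (c₀ + κ * (y i).val) ∧ n₀ ≤ c₀ + κ * (y i).val)) (filter_subset _ _) (fun i hi => by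
        rw [mem_filter] at hi
        exact hbad _ hi.2.2 hi.2.1)
    rw [sum_const, nsmul_eq_mul, mul_one_div, div_le_iff₀ hs0] at h4
    exact h4
  calc _ ≤ (hi - lo + δ / 2) * s.card + δ / 2 * s.card := add_le_add h3 h2
    _ = (hi - lo + δ) * s.card := by ring

/-- nothing is bad -/
theorem res_none {δ : ℝ} (hδ : 0 < δ) {κ : ℕ} (hκ : 1 ≤ κ) (n₀ : ℕ) (bad : ℕ → Prop)
    (hbad : ∀ m : ℕ, n₀ ≤ m → ¬ bad m) :
    ∃ Z₀ : ℕ, ∀ (ι : Type) (q : ℕ) [NeZero q] (s : Finset ι) (y : ι → ZMod q) (Z : ℝ), (Z₀ : ℝ) ≤ Z → Z ≤ q →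
      Flat1 q (1 / (Z * (42 + 3 * Real.log q))) s y → ∀ c₀ : ℕ,
      ({i : ι | i ∈ s ∧ bad (c₀ + κ * (y i).val)}.ncard : ℝ) ≤ δ * s.card := by
  obtain ⟨Z₀, h⟩ := res_arc (α := √2) irrational_sqrt_two 0 (le_refl (0 : ℝ)) hδ hκ n₀ bad
    (fun m hm hb => absurd hb (hbad m hm))
  refine ⟨Z₀, fun ι q _ s y Z hZ hZq hf c₀ => ?_⟩
  have := h ι q s y Z hZ hZq hf c₀
  rwa [sub_self, zero_add] at this

end Pool.Agent.N794.DG
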