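import Pool.Agent.N794.DG.Small
import Pool.Agent.N794.DG.Res
import Pool.Agent.N794.DG.Box

/-!
# Random integers with small exponential sums at finitely many irrational frequencies

A random integer is a finitely supported function `μ : ℕ →₀ ℝ`, `μ m ≥ 0`, `∑ μ m = 1`.
-/

set_option autoImplicit false

namespace Pool.Agent.N794.DG

open Finset Filter Topology
open Pool.Agent.N676.RV (Flat1)

/-- `μ` is a probability measure, its exponential sums at the frequencies `θ ∈ Θ` are at most `ε`, and the probability of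
`m < n₀` is at most `ε`. -/
structure Near (Θ : Finset ℝ) (ε : ℝ) (n₀ : ℕ) (μ : ℕ →₀ ℝ) : Prop where
  nonneg : ∀ m, 0 ≤ μ m
  sum_one : ∑ m ∈ μ.support, μ m = 1
  small : ∀ θ ∈ Θ, ‖∑ m ∈ μ.support, (μ m : ℂ) * ex (θ * m)‖ ≤ ε
  few : ∑ m ∈ range n₀, μ m ≤ ε

/-- All random integers whose exponential sums at certain finitely many irrational frequencies and whose probabilities of
small values are small have the property `Q`. -/
def Always (Q : (ℕ →₀ ℝ) → Prop) : Prop :=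
  ∃ Θ : Finset ℝ, (∀ θ ∈ Θ, Irrational θ) ∧ ∃ ε : ℝ, 0 < ε ∧ ∃ n₀ : ℕ, ∀ μ : ℕ →₀ ℝ, Near Θ ε n₀ μ → Q μ

open Classical in
/-- the probability of the property `P` -/
noncomputable def meas (μ : ℕ →₀ ℝ) (P : ℕ → Prop) : ℝ := ∑ m ∈ μ.support with P m, μ m

/-- A sequence of random integers such that the probability of every single integer tends to zero, and also the exponential
sums `∑ μ k (m) e(θ m)` for every irrational `θ`. -/
structure Weyl (μ : ℕ → ℕ →₀ ℝ) : Prop where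
  nonneg : ∀ k m, 0 ≤ μ k m
  sum_one : ∀ k, ∑ m ∈ (μ k).support, μ k m = 1
  escape : ∀ m, Tendsto (fun k => μ k m) atTop (𝓝 0)
  small : ∀ θ : ℝ, Irrational θ → Tendsto (fun k => ∑ m ∈ (μ k).support, (μ k m : ℂ) * ex (θ * m)) atTop (𝓝 0)

/-- The random integer which takes the values `x i` with the probabilities `w i`. -/
noncomputable def law {ι : Type} (Ω : Finset ι) (w : ι → ℝ) (x : ι → ℕ) : ℕ →₀ ℝ :=
  ∑ i ∈ Ω, Finsupp.single (x i) (w i)

/-- The random integer `c₀ + κ v`, where `v` has `k` independent digits in the base `b` with the probabilities `p j`. -/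
noncomputable def digitLaw {b k : ℕ} (p : Fin k → Fin b → ℝ) (c₀ κ : ℕ) : ℕ →₀ ℝ :=
  law univ (fun ε : Fin k → Fin b => ∏ j, p j (ε j)) (fun ε => c₀ + κ * value ε)

/-- The random integer `c₀ + κ y`, where `y` is the least residue of a random member of the family `y i`, `i ∈ s`, of
residues modulo `q`. -/
noncomputable def resLaw {ι : Type} {q : ℕ} (s : Finset ι) (y : ι → ZMod q) (c₀ κ : ℕ) : ℕ →₀ ℝ :=
  law s (fun _ => 1 / (s.card : ℝ)) (fun i => c₀ + κ * (y i).val)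

section
variable {ι : Type}

lemma law_apply (Ω : Finset ι) (w : ι → ℝ) (x : ι → ℕ) (m : ℕ) :
    law Ω w x m = ∑ i ∈ Ω, if x i = m then w i else 0 := by
  unfold law
  rw [Finsupp.finset_sum_apply]
  refine sum_congr rfl fun i _ => ?_
  rw [Finsupp.single_apply]

lemma law_sum {M : Type} [AddCommMonoid M] (Ω : Finset ι) (w : ι → ℝ) (x : ι → ℕ) (g : ℕ → ℝ → M) (h0 : ∀ m, g m 0 = 0)
    (hadd : ∀ m a b, g m (a + b) = g m a + g m b) :
    ∑ m ∈ (law Ω w x).support, g m (law Ω w x m) = ∑ i ∈ Ω, g (x i) (w i) := by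
  have h1 : (law Ω w x).sum g = ∑ i ∈ Ω, (Finsupp.single (x i) (w i)).sum g := by
    unfold law
    rw [Finsupp.sum_finset_sum_index h0 hadd]
  have h2 : (law Ω w x).sum g = ∑ m ∈ (law Ω w x).support, g m (law Ω w x m) := rfl
  rw [← h2, h1]
  refine sum_congr rfl fun i _ => ?_
  rw [Finsupp.sum_single_index (h0 _)]

lemma law_nonneg {Ω : Finset ι} {w : ι → ℝ} (hw : ∀ i ∈ Ω, 0 ≤ w i) (x : ι → ℕ) (m : ℕ) : 0 ≤ law Ω w x m := by
  rw [law_apply]
  apply sum_nonneg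
  intro i hi
  split_ifs
  · exact hw i hi
  · exact le_rfl

/-- a law is near -/
lemma law_near {Ω : Finset ι} {w : ι → ℝ} (hw : ∀ i ∈ Ω, 0 ≤ w i) (hs : ∑ i ∈ Ω, w i = 1) (x : ι → ℕ) {Θ : Finset ℝ}
    {ε : ℝ} {n₀ : ℕ} (hΘ : ∀ θ ∈ Θ, ‖∑ i ∈ Ω, (w i : ℂ) * ex (θ * x i)‖ ≤ ε)
    (hn : ∑ i ∈ Ω, (if x i < n₀ then w i else 0) ≤ ε) : Near Θ ε n₀ (law Ω w x) := by
  refine ⟨law_nonneg hw x, ?_, fun θ hθ => ?_, ?_⟩
  · have := law_sum Ω w x (fun _ a => a) (fun _ => rfl) (fun _ _ _ => rfl)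
    rw [this, hs]
  · have := law_sum Ω w x (fun m a => (a : ℂ) * ex (θ * m)) (fun _ => by simp) (fun m a b => by push_cast; ring)
    rw [this]
    exact hΘ θ hθ
  · refine le_trans (le_of_eq ?_) hn
    simp only [law_apply]
    rw [sum_comm]
    refine sum_congr rfl fun i _ => ?_
    rw [sum_ite_eq]
    simp only [mem_range]

end

/-- **Weyl sequences** -/
theorem Always.weyl {Q : (ℕ →₀ ℝ) → Prop} (hQ : Always Q) {μ : ℕ → ℕ →₀ ℝ} (hμ : Weyl μ) : ∀ᶠ k in atTop, Q (μ k) := by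
  obtain ⟨Θ, hΘ, ε, hε, n₀, h⟩ := hQ
  have h1 : ∀ᶠ k in atTop, ∀ θ ∈ Θ, ‖∑ m ∈ (μ k).support, (μ k m : ℂ) * ex (θ * m)‖ ≤ ε := by
    rw [eventually_all_finset]
    intro θ hθ
    have h2 := (hμ.small θ (hΘ θ hθ)).norm
    rw [norm_zero] at h2
    exact h2.eventually_le_const hε
  have h2 : ∀ᶠ k in atTop, ∑ m ∈ range n₀, μ k m ≤ ε := by
    have h3 : Tendsto (fun k => ∑ m ∈ range n₀, μ k m) atTop (𝓝 (∑ _m ∈ range n₀, (0 : ℝ))) :=
      tendsto_finset_sum _ fun m _ => hμ.escape m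
    rw [sum_const_zero] at h3
    exact h3.eventually_le_const hε
  filter_upwards [h1, h2] with k h1 h2
  exact h _ ⟨hμ.nonneg k, hμ.sum_one k, h1, h2⟩

/-- **random digits** -/
theorem Always.digits {Q : (ℕ →₀ ℝ) → Prop} (hQ : Always Q) {b : ℕ} (hb : 2 ≤ b) {η : ℝ} (hη : 0 < η) {κ : ℕ}
    (hκ : 1 ≤ κ) : ∃ k₀ : ℕ, ∀ k : ℕ, k₀ ≤ k → ∀ p : Fin k → Fin b → ℝ, Digits η p → ∀ c₀ : ℕ, Q (digitLaw p c₀ κ) := by
  classical
  obtain ⟨Θ, hΘ, ε, hε, n₀, h⟩ := hQ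
  have hk : ∀ θ : ℝ, ∃ k₀ : ℕ, θ ∈ Θ → ∀ k : ℕ, k₀ ≤ k → ∀ p : Fin k → Fin b → ℝ, Digits η p →
      ‖∑ v : Fin k → Fin b, ((∏ j, p j (v j) : ℝ) : ℂ) * ex (θ * κ * value v)‖ ≤ ε := by
    intro θ
    by_cases h0 : θ ∈ Θ
    · obtain ⟨k₀, hk₀⟩ := digits_small hb hη ((hΘ θ h0).mul_natCast (m := κ) (by omega)) hε
      exact ⟨k₀, fun _ => hk₀⟩
    · exact ⟨0, fun h1 => absurd h1 h0⟩
  choose K hK using hk
  have hρ1 : max 0 (1 - η) < 1 := max_lt one_pos (by linarith)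
  have hρ0 : 0 ≤ max 0 (1 - η) := le_max_left _ _
  obtain ⟨M, hM⟩ := exists_pow_lt_of_lt_one (show 0 < ε / (n₀ + 1) by positivity) hρ1
  refine ⟨max M (Θ.sup K), fun k hk p hp c₀ => h _ ?_⟩
  refine law_near (fun v _ => prod_nonneg fun j _ => hp.nonneg j _) ?_ _ (fun θ hθ => ?_) ?_
  · have h4 : ∑ v : Fin k → Fin b, ∏ j, p j (v j) = ∏ j : Fin k, ∑ x : Fin b, p j x := by
      rw [prod_univ_sum, Fintype.piFinset_univ]
    rw [h4, prod_congr rfl fun j _ => hp.sum_one j, prod_const_one]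
  · have h4 : ∑ v : Fin k → Fin b, ((∏ j, p j (v j) : ℝ) : ℂ) * ex (θ * ((c₀ + κ * value v : ℕ) : ℝ)) =
        ex (θ * c₀) * ∑ v : Fin k → Fin b, ((∏ j, p j (v j) : ℝ) : ℂ) * ex (θ * κ * value v) := by
      rw [mul_sum]
      refine sum_congr rfl fun v _ => ?_
      have e : θ * ((c₀ + κ * value v : ℕ) : ℝ) = θ * c₀ + θ * κ * value v := by
        push_cast
        ring
      rw [e, ex_add]
      ring
    rw [h4, norm_mul, norm_ex, one_mul]
    exact hK θ hθ k ((le_sup hθ).trans ((le_max_right _ _).trans hk)) p hp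
  · have h1 : ∑ v : Fin k → Fin b, (if c₀ + κ * value v < n₀ then ∏ j, p j (v j) else 0) ≤ prob p (fun v => v < n₀) := by
      unfold prob
      rw [sum_filter]
      apply sum_le_sum
      intro v _
      have h0 : 0 ≤ ∏ j, p j (v j) := prod_nonneg fun j _ => hp.nonneg j _
      by_cases hv : c₀ + κ * value v < n₀
      · have h2 : value v ≤ κ * value v := Nat.le_mul_of_pos_left _ (by omega)
        have h3 : value v < n₀ := by omega
        rw [if_pos hv, if_pos h3]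
      · rw [if_neg hv]
        split_ifs
        · exact h0
        · exact le_rfl
    refine h1.trans ((prob_small hp n₀).trans ?_)
    have h3 : (max 0 (1 - η)) ^ k ≤ (max 0 (1 - η)) ^ M :=
      pow_le_pow_of_le_one hρ0 hρ1.le ((le_max_left _ _).trans hk)
    have h4 : (n₀ : ℝ) * (max 0 (1 - η)) ^ k ≤ (n₀ + 1) * (ε / (n₀ + 1)) := by
      apply mul_le_mul (by linarith) (h3.trans hM.le) (by positivity) (by positivity)
    refine h4.trans (le_of_eq ?_)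
    have : (n₀ : ℝ) + 1 ≠ 0 := by positivity
    field_simp

/-- **residues** -/
theorem Always.residues {Q : (ℕ →₀ ℝ) → Prop} (hQ : Always Q) {κ : ℕ} (hκ : 1 ≤ κ) :
    ∃ Z₀ : ℕ, ∀ (ι : Type) (q : ℕ) [NeZero q] (s : Finset ι) (y : ι → ZMod q) (Z : ℝ), s.Nonempty → (Z₀ : ℝ) ≤ Z →
      Z ≤ q → Flat1 q (1 / (Z * (42 + 3 * Real.log q))) s y → ∀ c₀ : ℕ, Q (resLaw s y c₀ κ) := by
  classical
  obtain ⟨Θ, hΘ, ε, hε, n₀, h⟩ := hQ
  have hk : ∀ θ : ℝ, ∃ Z₀ : ℝ, θ ∈ Θ → ∀ (ι : Type) (q : ℕ) [NeZero q] (s : Finset ι) (y : ι → ZMod q) (Z : ℝ),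
      s.Nonempty → Z₀ ≤ Z → Z ≤ q → Flat1 q (1 / (Z * (42 + 3 * Real.log q))) s y →
      ‖∑ i ∈ s, ((1 / (s.card : ℝ) : ℝ) : ℂ) * ex (θ * κ * ((y i).val : ℕ))‖ ≤ ε := by
    intro θ
    by_cases h0 : θ ∈ Θ
    · obtain ⟨Z₀, -, hZ₀⟩ := res_small ((hΘ θ h0).mul_natCast (m := κ) (by omega)) hε
      exact ⟨Z₀, fun _ => hZ₀⟩
    · exact ⟨0, fun h1 => absurd h1 h0⟩
  choose K hK using hk
  obtain ⟨Z₁, hZ₁⟩ := exists_nat_ge ((n₀ + 1) / ε)
  refine ⟨Z₁ + n₀ + 1 + Θ.sup (fun θ => ⌈K θ⌉₊), fun ι q _ s y Z hs hZ hZq hf c₀ => h _ ?_⟩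
  push_cast at hZ
  have hsup0 : (0 : ℝ) ≤ ((Θ.sup (fun θ => ⌈K θ⌉₊) : ℕ) : ℝ) := Nat.cast_nonneg _
  have hZ1 : (0 : ℝ) ≤ Z₁ := Nat.cast_nonneg _
  have hn0 : (0 : ℝ) ≤ n₀ := Nat.cast_nonneg _
  have hZ0 : 0 < Z := by linarith
  have hs0 : (0 : ℝ) < s.card := by exact_mod_cast hs.card_pos
  refine law_near (fun _ _ => by positivity) (by rw [sum_const, nsmul_eq_mul, mul_one_div_cancel hs0.ne']) _
    (fun θ hθ => ?_) ?_
  · have h4 : ∑ i ∈ s, ((1 / (s.card : ℝ) : ℝ) : ℂ) * ex (θ * ((c₀ + κ * (y i).val : ℕ) : ℝ)) =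
        ex (θ * c₀) * ∑ i ∈ s, ((1 / (s.card : ℝ) : ℝ) : ℂ) * ex (θ * κ * ((y i).val : ℕ)) := by
      rw [mul_sum]
      refine sum_congr rfl fun i _ => ?_
      have e : θ * ((c₀ + κ * (y i).val : ℕ) : ℝ) = θ * c₀ + θ * κ * ((y i).val : ℕ) := by
        push_cast
        ring
      rw [e, ex_add]
      ring
    rw [h4, norm_mul, norm_ex, one_mul]
    refine hK θ hθ ι q s y Z hs ?_ hZq hf
    have h6 : (⌈K θ⌉₊ : ℝ) ≤ ((Θ.sup (fun θ => ⌈K θ⌉₊) : ℕ) : ℝ) := by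
      exact_mod_cast le_sup (f := fun θ => ⌈K θ⌉₊) hθ
    have h7 := Nat.le_ceil (K θ)
    linarith
  · have h1 : ∑ i ∈ s, (if c₀ + κ * (y i).val < n₀ then 1 / (s.card : ℝ) else 0) ≤
        ∑ i ∈ s, (if (y i).val < n₀ then 1 / (s.card : ℝ) else 0) := by
      apply sum_le_sum
      intro i _
      by_cases hv : c₀ + κ * (y i).val < n₀
      · have h2 : (y i).val ≤ κ * (y i).val := Nat.le_mul_of_pos_left _ (by omega)
        have h3 : (y i).val < n₀ := by omega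
        rw [if_pos hv, if_pos h3]
      · rw [if_neg hv]
        split_ifs
        · positivity
        · exact le_rfl
    refine h1.trans ?_
    rw [← sum_filter, sum_const, nsmul_eq_mul]
    have h2 := res_few s hs y hZ0 hZq hf n₀ (by
      have : (n₀ : ℝ) ≤ q := by linarith
      exact_mod_cast this)
    rw [mul_one_div, div_le_iff₀ hs0]
    refine h2.trans ?_
    apply mul_le_mul_of_nonneg_right _ hs0.le
    rw [div_le_iff₀ hZ0]
    have h3 : ((n₀ : ℝ) + 1) / ε ≤ Z := by linarith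
    rw [div_le_iff₀ hε] at h3
    linarith

/-- **the probability of an arc** -/
theorem always_arc {α : ℝ} (hα : Irrational α) (β : ℝ) {lo hi : ℝ} (hlh : lo ≤ hi) {δ : ℝ} (hδ : 0 < δ) (n₀ : ℕ)
    (bad : ℕ → Prop) (hbad : ∀ m : ℕ, n₀ ≤ m → bad m → ∃ z : ℤ, lo ≤ α * m + β - z ∧ α * m + β - z ≤ hi) :
    Always fun μ => meas μ bad ≤ hi - lo + δ := by
  classical
  obtain ⟨H, ε, hε, harc⟩ := arc_prob lo hi (δ / 2) hlh (by linarith)
  refine ⟨((Icc (-(H : ℤ)) H).erase 0).image (fun h : ℤ => (h : ℝ) * α), ?_, min ε (δ / 2), lt_min hε (by linarith), n₀,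
    fun μ hμ => ?_⟩
  · intro θ hθ
    obtain ⟨h, hh, rfl⟩ := mem_image.1 hθ
    exact hα.intCast_mul (mem_erase.1 hh).1
  have h3 : ∑ m ∈ μ.support.filter (fun m => bad m ∧ n₀ ≤ m), μ m ≤ hi - lo + δ / 2 := by
    refine harc ℕ μ.support (fun m => μ m) (fun m => α * m + β) (fun m _ => hμ.nonneg m) hμ.sum_one.le ?_ _
      (filter_subset _ _) ?_
    · intro h h0 hh
      have e : ∑ m ∈ μ.support, (μ m : ℂ) * ex (h * (α * m + β)) =
          ex (h * β) * ∑ m ∈ μ.support, (μ m : ℂ) * ex ((h : ℝ) * α * m) := by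
        rw [mul_sum]
        refine sum_congr rfl fun m _ => ?_
        have e1 : (h : ℝ) * (α * m + β) = h * β + (h : ℝ) * α * m := by ring
        rw [e1, ex_add]
        ring
      rw [e, norm_mul, norm_ex, one_mul]
      exact (hμ.small _ (mem_image_of_mem _ (mem_erase.2 ⟨h0, mem_Icc.2 (abs_le.1 hh)⟩))).trans (min_le_left _ _)
    · intro m hm
      rw [mem_filter] at hm
      exact hbad m hm.2.2 hm.2.1
  have h4 : ∑ m ∈ μ.support.filter (fun m => m < n₀), μ m ≤ δ / 2 := by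
    refine le_trans (sum_le_sum_of_subset_of_nonneg ?_ fun m _ _ => hμ.nonneg m) (hμ.few.trans (min_le_right _ _))
    intro m hm
    exact mem_range.2 (mem_filter.1 hm).2
  show meas μ bad ≤ hi - lo + δ
  unfold meas
  rw [sum_filter] at h3 h4 ⊢
  have h5 : ∑ m ∈ μ.support, (if bad m then μ m else 0) ≤
      ∑ m ∈ μ.support, (if bad m ∧ n₀ ≤ m then μ m else 0) + ∑ m ∈ μ.support, (if m < n₀ then μ m else 0) := by
    rw [← sum_add_distrib]
    apply sum_le_sum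
    intro m _
    have h0 := hμ.nonneg m
    by_cases hb : bad m
    · rcases lt_or_ge m n₀ with hm | hm
      · rw [if_pos hb, if_neg (by omega), if_pos hm, zero_add]
      · rw [if_pos hb, if_pos ⟨hb, hm⟩, if_neg (by omega), add_zero]
    · rw [if_neg hb, if_neg (fun h => hb h.1), zero_add]
      split_ifs
      · exact h0
      · exact le_rfl
  linarith

/-- nothing is bad -/
theorem always_none {δ : ℝ} (hδ : 0 < δ) (n₀ : ℕ) (bad : ℕ → Prop) (hbad : ∀ m : ℕ, n₀ ≤ m → ¬ bad m) :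
    Always fun μ => meas μ bad ≤ δ := by
  have h := always_arc (α := √2) irrational_sqrt_two 0 (le_refl (0 : ℝ)) hδ n₀ bad
    (fun m hm hb => absurd hb (hbad m hm))
  rw [sub_self, zero_add] at h
  exact h

/-- **the probability of a box** -/
theorem always_box {r : ℕ} (α : Fin r → ℝ) (hα : ∀ h : Fin r → ℤ, h ≠ 0 → Irrational (∑ j, (h j : ℝ) * α j))
    (β c : Fin r → ℝ) (ρ s δ : ℝ) (hρ : 0 ≤ ρ) (hρ2 : 2 * ρ ≤ 1) (hs : 0 < s) (hδ : 0 < δ) (n₀ : ℕ) (good : ℕ → Prop)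
    (hgood : ∀ m : ℕ, n₀ ≤ m → (∀ j, ∃ z : ℤ, |α j * m + β j - c j - z| ≤ ρ + s) → good m) :
    Always fun μ => (2 * ρ) ^ r - δ ≤ meas μ good := by
  classical
  obtain ⟨H, ε, hε, hbox⟩ := box_prob c ρ s (δ / 2) hρ hρ2 hs (by linarith)
  refine ⟨(H.erase 0).image (fun h : Fin r → ℤ => ∑ j, (h j : ℝ) * α j), ?_, min ε (δ / 2), lt_min hε (by linarith), n₀,
    fun μ hμ => ?_⟩
  · intro θ hθ
    obtain ⟨h, hh, rfl⟩ := mem_image.1 hθ
    exact hα h (mem_erase.1 hh).1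
  have h3 := hbox ℕ μ.support (fun m => μ m) (fun m j => α j * m + β j) (fun m _ => hμ.nonneg m) hμ.sum_one
    (fun h hh h0 => by
      have e : ∑ m ∈ μ.support, (μ m : ℂ) * ex (∑ j, (h j : ℝ) * (α j * m + β j)) =
          ex (∑ j, (h j : ℝ) * β j) * ∑ m ∈ μ.support, (μ m : ℂ) * ex ((∑ j, (h j : ℝ) * α j) * m) := by
        rw [mul_sum]
        refine sum_congr rfl fun m _ => ?_
        have e1 : ∑ j, (h j : ℝ) * (α j * m + β j) = ∑ j, (h j : ℝ) * β j + (∑ j, (h j : ℝ) * α j) * m := by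
          rw [sum_mul, ← sum_add_distrib]
          exact sum_congr rfl fun j _ => by ring
        rw [e1, ex_add]
        ring
      rw [e, norm_mul, norm_ex, one_mul]
      exact (hμ.small _ (mem_image_of_mem _ (mem_erase.2 ⟨h0, hh⟩))).trans (min_le_left _ _))
    (μ.support.filter fun m => good m ∨ m < n₀) (filter_subset _ _) (fun m hm hz => by
      rw [mem_filter]
      refine ⟨hm, ?_⟩
      rcases lt_or_ge m n₀ with h1 | h1
      · exact Or.inr h1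
      · exact Or.inl (hgood m h1 hz))
  have h4 : ∑ m ∈ μ.support.filter (fun m => m < n₀), μ m ≤ δ / 2 := by
    refine le_trans (sum_le_sum_of_subset_of_nonneg ?_ fun m _ _ => hμ.nonneg m) (hμ.few.trans (min_le_right _ _))
    intro m hm
    exact mem_range.2 (mem_filter.1 hm).2
  show (2 * ρ) ^ r - δ ≤ meas μ good
  unfold meas
  rw [sum_filter] at h3 h4 ⊢
  have h5 : ∑ m ∈ μ.support, (if good m ∨ m < n₀ then μ m else 0) ≤
      ∑ m ∈ μ.support, (if good m then μ m else 0) + ∑ m ∈ μ.support, (if m < n₀ then μ m else 0) := by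
    rw [← sum_add_distrib]
    apply sum_le_sum
    intro m _
    have h0 := hμ.nonneg m
    by_cases hb : good m <;> by_cases hm : m < n₀ <;> simp [hb, hm] <;> linarith
  linarith

/-- `Always` is monotone -/
theorem Always.mono {Q R : (ℕ →₀ ℝ) → Prop} (hQ : Always Q) (h : ∀ μ, (∀ m, 0 ≤ μ m) → Q μ → R μ) : Always R := by
  obtain ⟨Θ, hΘ, ε, hε, n₀, h1⟩ := hQ
  exact ⟨Θ, hΘ, ε, hε, n₀, fun μ hμ => h μ hμ.nonneg (h1 μ hμ)⟩

lemma meas_mono {μ : ℕ →₀ ℝ} (hμ : ∀ m, 0 ≤ μ m) {P R : ℕ → Prop} (h : ∀ m, P m → R m) : meas μ P ≤ meas μ R := by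
  classical
  unfold meas
  apply sum_le_sum_of_subset_of_nonneg
  · intro m hm
    rw [mem_filter] at hm ⊢
    exact ⟨hm.1, h m hm.2⟩
  · intro m _ _
    exact hμ m

end Pool.Agent.N794.DG
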