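import Pool.Agent.N141.SG.One
import Pool.Agent.N794.DG.Near

/-!
# Fat points with random multiplicities
-/

set_option autoImplicit false

namespace Pool.Agent.N794.DG

open Finset Filter
open Pool.Agent.N141.SG

/-- the square roots of the radicands and one are linearly independent -/
theorem rad_irr (h : Fin 20 → ℤ) (hh : h ≠ 0) : Irrational (∑ j : Fin 20, (h j : ℝ) * √(rad j.succ : ℝ)) := by
  rintro ⟨q, hq⟩
  apply hh
  have h2 := rad_indep (g := Fin.cons (-q.num) (fun j : Fin 20 => (q.den : ℤ) * h j)) (by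
    rw [Fin.sum_univ_succ]
    simp only [Fin.cons_zero, Fin.cons_succ]
    have h3 : rad 0 = 1 := rfl
    have h4 : ∑ j : Fin 20, (((q.den : ℤ) * h j : ℤ) : ℝ) * √(rad j.succ : ℝ) = q.den * (q : ℝ) := by
      rw [hq, mul_sum]
      refine sum_congr rfl fun j _ => ?_
      push_cast
      ring
    have h5 : (q.den : ℝ) * (q : ℝ) = q.num := by
      rw [mul_comm]
      exact_mod_cast Rat.mul_den_eq_num q
    rw [h4, h5, h3]
    push_cast
    simp)
  funext j
  have h3 := congrFun h2 j.succ
  simp only [Fin.cons_succ, Pi.zero_apply, mul_eq_zero] at h3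
  rcases h3 with h3 | h3
  · exact absurd (by exact_mod_cast h3) q.den_nz
  · simpa using h3

/-- **all the radicands at once** -/
theorem always_tgt : Always fun μ => 1 / 10 ^ 65 ≤ meas μ fun m => 1 ≤ m ∧ Tgt m := by
  have h1 := always_box (r := 20) (fun j => √(rad j.succ : ℝ)) rad_irr (fun j => √(rad j.succ : ℝ) / 2)
    (fun j => ((cell j.succ : ℝ) - 5 / 2) / 10000) (3 / 10000) (1 / 20000) ((2 * (3 / 10000)) ^ 20 - 1 / 10 ^ 65)
    (by norm_num) (by norm_num) (by norm_num) (by norm_num) 1 (fun m => 1 ≤ m ∧ Tgt m) (fun m hm hz => by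
      refine ⟨hm, fun j hj => ?_⟩
      have hj0 : j ≠ 0 := fun h0 => hj (by rw [h0]; rfl)
      obtain ⟨i, rfl⟩ := Fin.exists_succ_eq.2 hj0
      obtain ⟨z, hz'⟩ := hz i
      have hz : |√(rad i.succ : ℝ) * m + √(rad i.succ : ℝ) / 2 - ((cell i.succ : ℝ) - 5 / 2) / 10000 - z| ≤
        3 / 10000 + 1 / 20000 := hz'
      rw [abs_le] at hz
      refine ⟨z, ?_, ?_⟩
      · push_cast
        linarith [hz.1]
      · push_cast
        linarith [hz.2])
  rwa [sub_sub_cancel] at h1

/-- **one number of points** -/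
theorem always_one {n : ℕ} (hn : 10 ≤ n) {δ : ℝ} (hδ : 0 < δ) :
    Always fun μ => meas μ (fun m => ¬ Ex n m) ≤ badU n + δ := by
  classical
  have hs3 := three_lt hn
  by_cases hC : 37 ≤ n ∨ n = 13 ∨ n = 21 ∨ IsSquare n
  · have e : badU n = 0 := by
      unfold badU
      rw [if_pos hC]
    rw [e, zero_add]
    refine always_none hδ 1 _ (fun m hm hbad => ?_)
    obtain ⟨d, hd⟩ := open_of hn hm hbad
    exact hd.1 hC
  · have hsq : ¬ IsSquare n := fun h0 => hC (Or.inr (Or.inr (Or.inr h0)))
    have hirr : Irrational √(n : ℝ) := irrational_sqrt_natCast_iff.2 hsq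
    by_cases h11 : n = 11 ∨ n = 15
    · have e : badU n = 0 - (-((√(n : ℝ) - 3) / 6)) := by
        unfold badU
        rw [if_neg hC, if_pos h11]
        ring
      rw [e]
      have hirr3 : Irrational (√(n : ℝ) / 3) := by
        have := hirr.div_natCast (m := 3) (by norm_num)
        simpa using this
      refine always_arc hirr3 0 (by linarith) hδ 1 _ (fun m hm hbad => ?_)
      obtain ⟨d, -, h1, h2, h3⟩ := open_of hn hm hbad
      obtain ⟨⟨z, rfl⟩, h4, h5⟩ := h3 h11
      push_cast at h4 h5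
      refine ⟨z, ?_, ?_⟩
      · push_cast
        linarith
      · push_cast
        linarith
    · obtain ⟨g1, g2⟩ := win_nonneg hn
      have e : badU n = min (√(n : ℝ) - 3) (2 / 3 + 9 / (4 * √(n : ℝ))) / 2 -
          (-(min (√(n : ℝ) - 3) (2 / 3 + 1 / (4 * √(n : ℝ))) / 2)) := by
        unfold badU
        rw [if_neg hC, if_neg h11]
        ring
      rw [e]
      refine always_arc hirr ((√(n : ℝ) - 3) / 2) (by linarith) hδ 1 _ (fun m hm hbad => ?_)
      obtain ⟨d, -, h1, h2, -⟩ := open_of hn hm hbad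
      refine ⟨d, ?_, ?_⟩
      · push_cast
        linarith
      · push_cast
        linarith

end Pool.Agent.N794.DG
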