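import Pool.Agent.N794.DG.Digits

/-!
# Random digits: exponential sums and arcs
-/

set_option autoImplicit false

namespace Pool.Agent.N794.DG

open Finset
open scoped Real

lemma ex_sum {ι : Type} (s : Finset ι) (f : ι → ℝ) : ex (∑ i ∈ s, f i) = ∏ i ∈ s, ex (f i) := by
  classical
  induction s using Finset.induction_on with
  | empty => simp [ex_zero]
  | insert a s ha ih => rw [sum_insert ha, prod_insert ha, ex_add, ih]

/-- factorisation -/
lemma fact {b k : ℕ} (p : Fin k → Fin b → ℝ) (θ : ℝ) :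
    ∑ ε : Fin k → Fin b, ((∏ j, p j (ε j) : ℝ) : ℂ) * ex (θ * value ε) =
      ∏ j : Fin k, ∑ x : Fin b, (p j x : ℂ) * ex (θ * (b : ℝ) ^ (j : ℕ) * (x : ℕ)) := by
  rw [prod_univ_sum, Fintype.piFinset_univ]
  refine sum_congr rfl fun ε _ => ?_
  rw [prod_mul_distrib, ← ex_sum]
  push_cast
  congr 2
  unfold value
  push_cast
  rw [mul_sum]
  refine sum_congr rfl fun j _ => by ring

/-- **the exponential sums are small** -/
theorem digits_small {b : ℕ} (hb : 2 ≤ b) {η : ℝ} (hη : 0 < η) {θ : ℝ} (hθ : Irrational θ) {ε : ℝ} (hε : 0 < ε) :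
    ∃ k₀ : ℕ, ∀ k : ℕ, k₀ ≤ k → ∀ p : Fin k → Fin b → ℝ, Digits η p →
      ‖∑ v : Fin k → Fin b, ((∏ j, p j (v j) : ℝ) : ℂ) * ex (θ * value v)‖ ≤ ε := by
  classical
  obtain ⟨F, hF⟩ : ∃ F : ℕ, F = (b - 1).factorial := ⟨_, rfl⟩
  have hF0 : 0 < F := by
    rw [hF]
    exact Nat.factorial_pos _
  have hb0 : (0 : ℝ) < b := by exact_mod_cast (by omega : 0 < b)
  have hF0' : (0 : ℝ) < F := by exact_mod_cast hF0
  obtain ⟨c, hc⟩ : ∃ c : ℝ, c = η / ((b : ℝ) ^ 4 * (F : ℝ) ^ 2) := ⟨_, rfl⟩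
  have hc0 : 0 < c := by
    rw [hc]
    positivity
  obtain ⟨ρ, hρ⟩ : ∃ ρ : ℝ, ρ = max 0 (1 - c) := ⟨_, rfl⟩
  have hρ0 : 0 ≤ ρ := by
    rw [hρ]
    exact le_max_left _ _
  have hρ1 : ρ < 1 := by
    rw [hρ]
    exact max_lt one_pos (by linarith)
  obtain ⟨M, hM⟩ := exists_pow_lt_of_lt_one hε hρ1
  have hθF : Irrational ((F : ℝ) * θ) := hθ.natCast_mul hF0.ne'
  have hinf : {j : ℕ | 1 / (2 * (b : ℝ)) ≤ |(b : ℝ) ^ j * ((F : ℝ) * θ) - round ((b : ℝ) ^ j * ((F : ℝ) * θ))|}.Infinite := by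
    rw [Set.infinite_iff_exists_gt]
    intro j₀
    obtain ⟨j, hj1, hj2⟩ := inf_good hb hθF (j₀ + 1)
    exact ⟨j, hj2, by omega⟩
  obtain ⟨t, ht1, ht2⟩ := hinf.exists_subset_card_eq M
  refine ⟨t.sup id + 1, fun k hk p hp => ?_⟩
  rw [fact, norm_prod]
  have hstep : ∀ j : Fin k, ‖∑ x : Fin b, (p j x : ℂ) * ex (θ * (b : ℝ) ^ (j : ℕ) * (x : ℕ))‖ ≤
      (fun i : ℕ => if i ∈ t then ρ else 1) (j : ℕ) := by
    intro j
    obtain ⟨h1, h2⟩ := factor hb hη (p j) (hp.nonneg j) (hp.sum_one j) (hp.le j) (θ * (b : ℝ) ^ (j : ℕ))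
    simp only
    split_ifs with hj
    · have h3 := ht1 hj
      rw [Set.mem_setOf_eq] at h3
      have e : (b : ℝ) ^ (j : ℕ) * ((F : ℝ) * θ) = ((b - 1).factorial : ℝ) * (θ * (b : ℝ) ^ (j : ℕ)) := by
        rw [hF]
        ring
      rw [e] at h3
      refine (h2 h3).trans ?_
      rw [hρ, hc, hF]
      exact le_max_right _ _
    · exact h1
  refine (prod_le_prod (fun j _ => norm_nonneg _) fun j _ => hstep j).trans ?_
  rw [Fin.prod_univ_eq_prod_range (fun i : ℕ => if i ∈ t then ρ else 1) k, prod_ite_mem, prod_const]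
  have hsub : range k ∩ t = t := by
    apply inter_eq_right.2
    intro i hi
    have : i ≤ t.sup id := le_sup (f := id) hi
    rw [mem_range]
    omega
  rw [hsub, ht2]
  exact hM.le

lemma prob_mono {b k : ℕ} {η : ℝ} {p : Fin k → Fin b → ℝ} (hp : Digits η p) {P Q : ℕ → Prop} (h : ∀ v, P v → Q v) :
    prob p P ≤ prob p Q := by
  classical
  unfold prob
  apply sum_le_sum_of_subset_of_nonneg
  · intro v hv
    rw [mem_filter] at hv ⊢
    exact ⟨hv.1, h _ hv.2⟩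
  · intro v _ _
    exact prod_nonneg fun j _ => hp.nonneg j _

lemma prob_or {b k : ℕ} {η : ℝ} {p : Fin k → Fin b → ℝ} (hp : Digits η p) (P Q : ℕ → Prop) :
    prob p (fun v => P v ∨ Q v) ≤ prob p P + prob p Q := by
  classical
  unfold prob
  rw [sum_filter, sum_filter, sum_filter, ← sum_add_distrib]
  apply sum_le_sum
  intro v _
  have h0 : 0 ≤ ∏ j, p j (v j) := prod_nonneg fun j _ => hp.nonneg j _
  by_cases hP : P (value v) <;> by_cases hQ : Q (value v) <;> simp [hP, hQ] <;> linarith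

lemma prob_eq {b k : ℕ} (p : Fin k → Fin b → ℝ) (P : ℕ → Prop) : ∃ B : Finset (Fin k → Fin b),
    (∀ v, v ∈ B ↔ P (value v)) ∧ prob p P = ∑ v ∈ B, ∏ j, p j (v j) := by
  classical
  refine ⟨univ.filter fun v : Fin k → Fin b => P (value v), fun v => by simp, ?_⟩
  unfold prob
  apply sum_congr _ fun _ _ => rfl
  ext v
  simp

/-- small values have a small probability -/
lemma prob_small {b k : ℕ} {η : ℝ} {p : Fin k → Fin b → ℝ} (hp : Digits η p) (n₀ : ℕ) :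
    prob p (fun v => v < n₀) ≤ n₀ * (max 0 (1 - η)) ^ k := by
  classical
  obtain ⟨B, hB, e⟩ := prob_eq p (fun v => v < n₀)
  rw [e]
  have h1 : ∀ v ∈ B, ∏ j, p j (v j) ≤ (max 0 (1 - η)) ^ k := by
    intro v _
    have h2 : ∏ j, p j (v j) ≤ ∏ _j : Fin k, max 0 (1 - η) :=
      prod_le_prod (fun j _ => hp.nonneg j _) fun j _ => (hp.le j _).trans (le_max_right _ _)
    rwa [prod_const, card_univ, Fintype.card_fin] at h2
  refine (sum_le_card_nsmul _ _ _ h1).trans ?_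
  rw [nsmul_eq_mul]
  apply mul_le_mul_of_nonneg_right _ (by positivity)
  have h2 : B.card ≤ (range n₀).card := by
    apply card_le_card_of_injOn (fun v => value v)
    · intro v hv
      exact mem_coe.2 (mem_range.2 ((hB v).1 hv))
    · exact value_inj.injOn
  rw [card_range] at h2
  exact_mod_cast h2

/-- **the probability of an arc** -/
theorem digits_arc {b : ℕ} (hb : 2 ≤ b) {η : ℝ} (hη : 0 < η) {α : ℝ} (hα : Irrational α) (β : ℝ) {lo hi : ℝ}
    (hlh : lo ≤ hi) {δ : ℝ} (hδ : 0 < δ) {κ : ℕ} (hκ : 1 ≤ κ) (n₀ : ℕ) (bad : ℕ → Prop)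
    (hbad : ∀ m : ℕ, n₀ ≤ m → bad m → ∃ z : ℤ, lo ≤ α * m + β - z ∧ α * m + β - z ≤ hi) :
    ∃ k₀ : ℕ, ∀ k : ℕ, k₀ ≤ k → ∀ (c₀ : ℕ) (p : Fin k → Fin b → ℝ), Digits η p →
      prob p (fun v => bad (c₀ + κ * v)) ≤ hi - lo + δ := by
  classical
  obtain ⟨H, ε, hε, harc⟩ := arc_prob lo hi (δ / 2) hlh (by linarith)
  have hirr : ∀ h : ℤ, h ≠ 0 → Irrational ((h : ℝ) * α * κ) := by
    intro h h0
    exact (hα.intCast_mul h0).mul_natCast (by omega)
  have hk : ∀ h : ℤ, ∃ k₀ : ℕ, h ≠ 0 → ∀ k : ℕ, k₀ ≤ k → ∀ p : Fin k → Fin b → ℝ, Digits η p →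
      ‖∑ v : Fin k → Fin b, ((∏ j, p j (v j) : ℝ) : ℂ) * ex ((h : ℝ) * α * κ * value v)‖ ≤ ε := by
    intro h
    by_cases h0 : h = 0
    · exact ⟨0, fun h1 => absurd h0 h1⟩
    · obtain ⟨k₀, hk₀⟩ := digits_small hb hη (hirr h h0) hε
      exact ⟨k₀, fun _ => hk₀⟩
  choose K hK using hk
  have hρ1 : max 0 (1 - η) < 1 := max_lt one_pos (by linarith)
  have hρ0 : 0 ≤ max 0 (1 - η) := le_max_left _ _
  obtain ⟨M, hM⟩ := exists_pow_lt_of_lt_one (show 0 < δ / 2 / (n₀ + 1) by positivity) hρ1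
  refine ⟨max M ((Icc (-(H : ℤ)) H).sup K), fun k hk c₀ p hp => ?_⟩
  have h1 : prob p (fun v => bad (c₀ + κ * v)) ≤
      prob p (fun v => (bad (c₀ + κ * v) ∧ n₀ ≤ c₀ + κ * v) ∨ v < n₀) := by
    apply prob_mono hp
    intro v hv
    by_cases h2 : n₀ ≤ c₀ + κ * v
    · exact Or.inl ⟨hv, h2⟩
    · right
      push Not at h2
      have : v ≤ κ * v := Nat.le_mul_of_pos_left v (by omega)
      omega
  refine h1.trans ((prob_or hp _ _).trans ?_)
  have h2 : prob p (fun v => v < n₀) ≤ δ / 2 := by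
    refine (prob_small hp n₀).trans ?_
    have h3 : (max 0 (1 - η)) ^ k ≤ (max 0 (1 - η)) ^ M :=
      pow_le_pow_of_le_one hρ0 hρ1.le ((le_max_left _ _).trans hk)
    have h4 : (n₀ : ℝ) * (max 0 (1 - η)) ^ k ≤ (n₀ + 1) * (δ / 2 / (n₀ + 1)) := by
      apply mul_le_mul (by linarith) (h3.trans hM.le) (by positivity) (by positivity)
    refine h4.trans (le_of_eq ?_)
    have : (n₀ : ℝ) + 1 ≠ 0 := by positivity
    field_simp
  have h3 : prob p (fun v => bad (c₀ + κ * v) ∧ n₀ ≤ c₀ + κ * v) ≤ hi - lo + δ / 2 := by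
    obtain ⟨B, hB, e⟩ := prob_eq p (fun v => bad (c₀ + κ * v) ∧ n₀ ≤ c₀ + κ * v)
    rw [e]
    refine harc (Fin k → Fin b) univ (fun v => ∏ j, p j (v j)) (fun v => α * ((c₀ + κ * value v : ℕ) : ℝ) + β)
      (fun v _ => prod_nonneg fun j _ => hp.nonneg j _) ?_ ?_ B (subset_univ _) ?_
    · have h4 : ∑ v : Fin k → Fin b, ∏ j, p j (v j) = ∏ j : Fin k, ∑ x : Fin b, p j x := by
        rw [prod_univ_sum, Fintype.piFinset_univ]
      rw [h4, prod_congr rfl fun j _ => hp.sum_one j, prod_const_one]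
    · intro h h0 hh
      have h4 : ∑ v : Fin k → Fin b, ((∏ j, p j (v j) : ℝ) : ℂ) * ex (h * (α * ((c₀ + κ * value v : ℕ) : ℝ) + β)) =
          ex (h * (α * c₀ + β)) * ∑ v : Fin k → Fin b, ((∏ j, p j (v j) : ℝ) : ℂ) * ex ((h : ℝ) * α * κ * value v) := by
        rw [mul_sum]
        refine sum_congr rfl fun v _ => ?_
        have e : (h : ℝ) * (α * ((c₀ + κ * value v : ℕ) : ℝ) + β) = h * (α * c₀ + β) + (h : ℝ) * α * κ * value v := by
          push_cast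
          ring
        rw [e, ex_add]
        ring
      rw [h4, norm_mul, norm_ex, one_mul]
      apply hK h h0 k _ p hp
      have h5 : h ∈ Icc (-(H : ℤ)) H := by
        rw [mem_Icc]
        exact abs_le.1 hh
      exact (le_sup h5).trans ((le_max_right _ _).trans hk)
    · intro v hv
      have h6 := (hB v).1 hv
      exact hbad _ h6.2 h6.1
  linarith

/-- nothing is bad -/
theorem digits_none {b : ℕ} {η : ℝ} (hη : 0 < η) {δ : ℝ} (hδ : 0 < δ) {κ : ℕ} (hκ : 1 ≤ κ) (n₀ : ℕ) (bad : ℕ → Prop)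
    (hbad : ∀ m : ℕ, n₀ ≤ m → ¬ bad m) :
    ∃ k₀ : ℕ, ∀ k : ℕ, k₀ ≤ k → ∀ (c₀ : ℕ) (p : Fin k → Fin b → ℝ), Digits η p →
      prob p (fun v => bad (c₀ + κ * v)) ≤ δ := by
  have hρ1 : max 0 (1 - η) < 1 := max_lt one_pos (by linarith)
  have hρ0 : 0 ≤ max 0 (1 - η) := le_max_left _ _
  obtain ⟨M, hM⟩ := exists_pow_lt_of_lt_one (show 0 < δ / (n₀ + 1) by positivity) hρ1
  refine ⟨M, fun k hk c₀ p hp => ?_⟩
  have h1 : prob p (fun v => bad (c₀ + κ * v)) ≤ prob p (fun v => v < n₀) := by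
    apply prob_mono hp
    intro v hv
    by_contra h2
    push Not at h2
    have : v ≤ κ * v := Nat.le_mul_of_pos_left v (by omega)
    exact hbad _ (by omega) hv
  refine h1.trans ((prob_small hp n₀).trans ?_)
  have h3 : (max 0 (1 - η)) ^ k ≤ (max 0 (1 - η)) ^ M := pow_le_pow_of_le_one hρ0 hρ1.le hk
  have h4 : (n₀ : ℝ) * (max 0 (1 - η)) ^ k ≤ (n₀ + 1) * (δ / (n₀ + 1)) := by
    apply mul_le_mul (by linarith) (h3.trans hM.le) (by positivity) (by positivity)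
  refine h4.trans (le_of_eq ?_)
  have : (n₀ : ℝ) + 1 ≠ 0 := by positivity
  field_simp

end Pool.Agent.N794.DG
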